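import Pool.Agent.MUT.Ml

/-!
# MUT: `(U^(⊗ k) ⊗ Q)^(⊗ n)` and `U^(⊗ N) ⊗ Q^(⊗ n)`

`cat_ml`: concatenation of tensor powers, by induction on the first exponent. `br_pw`: the braiding of `Q` with the
tensor powers of `U` (hexagon). `flat`: by induction on `n`, with the exchange of the two middle factors of
`(P ⊗ Q) ⊗ (R ⊗ S)`, which is algebraic because the sign of the braiding is a scalar.
-/

set_option linter.unusedSectionVars false
set_option linter.unusedVariables false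

namespace Pool.Agent.MUT

open CategoryTheory MonoidalCategory Limits TensorProduct Pool.Agent.KTT

universe v u w w'

variable {C : Type u} [Category.{v} C] [MonoidalCategory C]
  {F : Type w} [Field F] (H : C ⥤ ModuleCat.{w} F) [H.Monoidal]

omit [MonoidalCategory C] [H.Monoidal] in
private theorem flat_comp {X Y Z : C} (f : X ⟶ Y) (g : Y ⟶ Z) (x : H.obj X) :
    (H.map (f ≫ g)).hom x = (H.map g).hom ((H.map f).hom x) := by
  rw [H.map_comp]
  rfl

private theorem flat_wr {X Y : C} (f : X ⟶ Y) (Z : C) (x : H.obj X) (z : H.obj Z) :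
    (H.map (f ▷ Z)).hom (tm H x z) = tm H ((H.map f).hom x) z := by
  rw [← tensorHom_id, map_tm, H.map_id]
  rfl

private theorem flat_wl {X Y : C} (Z : C) (f : X ⟶ Y) (z : H.obj Z) (x : H.obj X) :
    (H.map (Z ◁ f)).hom (tm H z x) = tm H z ((H.map f).hom x) := by
  rw [← id_tensorHom, map_tm, H.map_id]
  rfl

omit [MonoidalCategory C] [H.Monoidal] in
private theorem flat_inv_hom {X Y : C} (f : X ≅ Y) (x : H.obj X) :
    (H.map f.inv).hom ((H.map f.hom).hom x) = x := by
  rw [← flat_comp, Iso.hom_inv_id, H.map_id]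
  rfl

/-- `y ↦ x ⊗ y` -/
private noncomputable def flat_tmr {X : C} (Y : C) (x : H.obj X) : H.obj Y →ₗ[F] H.obj (X ⊗ Y) where
  toFun y := tm H x y
  map_add' y y' := tm_add_right H x y y'
  map_smul' c y := tm_smul_right H c x y

/-- `x ↦ x ⊗ y` -/
private noncomputable def flat_tml (X : C) {Y : C} (y : H.obj Y) : H.obj X →ₗ[F] H.obj (X ⊗ Y) where
  toFun x := tm H x y
  map_add' x x' := tm_add_left H x x' y
  map_smul' c x := tm_smul_left H c x y

/-- one more slot in front -/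
private theorem flat_cons {k n m : ℕ} (φ : Fin m ≃ Fin k ⊕ Fin n) :
    ∃ ψ : Fin (m + 1) ≃ Fin (k + 1) ⊕ Fin n, ψ 0 = Sum.inl 0 ∧
      ∀ i : Fin m, ψ i.succ = Sum.map Fin.succ id (φ i) := by
  have hinj : Function.Injective (Fin.cons (Sum.inl 0) fun i => Sum.map Fin.succ id (φ i) :
      Fin (m + 1) → Fin (k + 1) ⊕ Fin n) := by
    rw [Fin.cons_injective_iff]
    refine ⟨?_, ?_⟩
    · rintro ⟨i, hi⟩
      have h1 : Sum.map Fin.succ id (φ i) = (Sum.inl 0 : Fin (k + 1) ⊕ Fin n) := hi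
      rcases h2 : φ i with j | j
      · rw [h2] at h1
        exact Fin.succ_ne_zero j (Sum.inl.inj h1)
      · rw [h2] at h1
        exact Sum.inr_ne_inl h1
    · intro i j hij
      have h1 : Function.Injective (Sum.map Fin.succ id : Fin k ⊕ Fin n → Fin (k + 1) ⊕ Fin n) :=
        (Fin.succ_injective k).sumMap Function.injective_id
      exact φ.injective (h1 hij)
  have hcard : Fintype.card (Fin (m + 1)) = Fintype.card (Fin (k + 1) ⊕ Fin n) := by
    have h1 := Fintype.card_congr φ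
    rw [Fintype.card_fin, Fintype.card_sum, Fintype.card_fin, Fintype.card_fin] at h1
    rw [Fintype.card_fin, Fintype.card_sum, Fintype.card_fin, Fintype.card_fin]
    omega
  refine ⟨Equiv.ofBijective _ ((Fintype.bijective_iff_injective_and_card _).2 ⟨hinj, hcard⟩),
    ?_, fun i => ?_⟩
  · rw [Equiv.ofBijective_apply, Fin.cons_zero]
  · rw [Equiv.ofBijective_apply, Fin.cons_succ]

theorem cat_ml (U : C) (k n : ℕ) :
    ∃ φ : Fin (n + k) ≃ Fin k ⊕ Fin n, ∃ A ∈ ah H (pw U k ⊗ pw U n) (pw U (n + k)),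
      ∃ A' ∈ ah H (pw U (n + k)) (pw U k ⊗ pw U n), ∀ x y,
        A (tm H (ml H k x) (ml H n y)) = ml H (n + k) (Sum.elim x y ∘ φ) ∧
        A' (ml H (n + k) (Sum.elim x y ∘ φ)) = tm H (ml H k x) (ml H n y) := by
  induction k with
  | zero =>
    refine ⟨(Equiv.emptySum (Fin 0) (Fin n)).symm, (H.map (λ_ (pw U n)).hom).hom, ah_map H _,
      (H.map (λ_ (pw U n)).inv).hom, ah_map H _, fun x y => ⟨?_, ?_⟩⟩
    · exact left_tm H (ml H n y)
    · exact left_inv_tm H (ml H n y)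
  | succ k ih =>
    obtain ⟨φ, A, hA, A', hA', h⟩ := ih
    obtain ⟨ψ, h0, hs⟩ := flat_cons φ
    have key : ∀ (x : Fin (k + 1) → H.obj U) (y : Fin n → H.obj U),
        ml H (n + (k + 1)) (Sum.elim x y ∘ ψ) =
          tm H (x 0) (ml H (n + k) (Sum.elim (fun i => x i.succ) y ∘ φ)) := by
      intro x y
      change tm H ((Sum.elim x y ∘ ψ) 0)
        (ml H (n + k) fun i => (Sum.elim x y ∘ ψ) (Fin.succ i)) = _
      have e1 : (Sum.elim x y ∘ ψ) 0 = x 0 := by
        rw [Function.comp_apply, h0, Sum.elim_inl]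
      have e2 : (fun i => (Sum.elim x y ∘ ψ) (Fin.succ i)) =
          Sum.elim (fun i => x i.succ) y ∘ φ := by
        funext i
        rw [Function.comp_apply, Function.comp_apply, hs]
        rcases φ i with j | j <;> rfl
      rw [e1, e2]
    refine ⟨ψ, tl H LinearMap.id A ∘ₗ (H.map (α_ U (pw U k) (pw U n)).hom).hom,
      ah_comp H (ah_map H _) (ah_tl H (ah_id H U) hA),
      (H.map (α_ U (pw U k) (pw U n)).inv).hom ∘ₗ tl H LinearMap.id A',
      ah_comp H (ah_tl H (ah_id H U) hA') (ah_map H _), fun x y => ⟨?_, ?_⟩⟩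
    · rw [key]
      change tl H LinearMap.id A ((H.map (α_ U (pw U k) (pw U n)).hom).hom
        (tm H (tm H (x 0) (ml H k fun i => x i.succ)) (ml H n y))) = _
      rw [assoc_tm, tl_tm, (h _ _).1, LinearMap.id_apply]
    · rw [key]
      change (H.map (α_ U (pw U k) (pw U n)).inv).hom (tl H LinearMap.id A'
        (tm H (x 0) (ml H (n + k) (Sum.elim (fun i => x i.succ) y ∘ φ)))) =
        tm H (tm H (x 0) (ml H k fun i => x i.succ)) (ml H n y)
      rw [tl_tm, (h _ _).2, LinearMap.id_apply, assoc_inv_tm]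

private theorem flat_br_tensor [BraidedCategory C] {X Y Z : C} (h : Br H X Y) (h' : Br H X Z) :
    Br H X (Y ⊗ Z) := by
  obtain ⟨s, hs, h1⟩ := h
  obtain ⟨t, ht, h2⟩ := h'
  refine ⟨s * t, ?_, ?_⟩
  · rcases hs with rfl | rfl <;> rcases ht with rfl | rfl <;> simp
  · intro x w
    have key : (H.map (β_ X (Y ⊗ Z)).hom).hom ∘ₗ flat_tmr H (Y ⊗ Z) x =
        (s * t) • flat_tml H (Y ⊗ Z) x := by
      refine tm_ext H fun y z => ?_
      change (H.map (β_ X (Y ⊗ Z)).hom).hom (tm H x (tm H y z)) =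
        (s * t) • tm H (tm H y z) x
      have h3 := BraidedCategory.hexagon_forward X Y Z
      have h4 := congrArg (fun f => (H.map f).hom (tm H (tm H x y) z)) h3
      simp only [flat_comp] at h4
      rw [assoc_tm, flat_wr, h1, tm_smul_left, map_smul, map_smul, assoc_tm, flat_wl, h2,
        tm_smul_right] at h4
      have h5 := congrArg (H.map (α_ Y Z X).inv).hom h4
      rw [flat_inv_hom, map_smul, map_smul, assoc_inv_tm, smul_smul] at h5
      exact h5
    have h6 := LinearMap.congr_fun key w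
    exact h6

private theorem flat_unit (y : H.obj (𝟙_ C)) : ∃ c : F, y = c • un H := by
  refine ⟨(Functor.OplaxMonoidal.η H).hom y, ?_⟩
  have h1 : (Functor.LaxMonoidal.ε H).hom ((Functor.OplaxMonoidal.η H).hom y) = y :=
    LinearMap.congr_fun (congrArg ModuleCat.Hom.hom (Functor.Monoidal.η_ε H)) y
  conv_lhs => rw [← h1]
  unfold un
  rw [← map_smul]
  refine congrArg (Functor.LaxMonoidal.ε H).hom ?_
  exact (mul_one (M := F) _).symm

theorem br_pw [BraidedCategory C] {U Q : C} (hQ : Br H Q U) (n : ℕ) : Br H Q (pw U n) := by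
  induction n with
  | zero =>
    refine ⟨1, Or.inl rfl, fun x y => ?_⟩
    obtain ⟨c, rfl⟩ := flat_unit H y
    change (H.map (β_ Q (𝟙_ C)).hom).hom (tm H x (c • un H)) = (1 : F) • tm H (c • un H) x
    rw [braiding_tensorUnit_right, tm_smul_right, map_smul, flat_comp, right_tm, left_inv_tm,
      one_smul, tm_smul_left]
  | succ n ih => exact flat_br_tensor H hQ ih

/-- the exchange of the two middle factors -/
private noncomputable def flat_mid [BraidedCategory C] (P Q R S : C) :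
    (P ⊗ Q) ⊗ (R ⊗ S) ≅ (P ⊗ R) ⊗ (Q ⊗ S) :=
  α_ P Q (R ⊗ S) ≪≫ whiskerLeftIso P ((α_ Q R S).symm ≪≫ whiskerRightIso (β_ Q R) S ≪≫ α_ R Q S) ≪≫
    (α_ P R (Q ⊗ S)).symm

private theorem flat_mid_tm [BraidedCategory C] {P Q R S : C} {s : F}
    (hs : ∀ (x : H.obj Q) (y : H.obj R), (H.map (β_ Q R).hom).hom (tm H x y) = s • tm H y x)
    (p : H.obj P) (q : H.obj Q) (r : H.obj R) (t : H.obj S) :
    (H.map (flat_mid P Q R S).hom).hom (tm H (tm H p q) (tm H r t)) =
      s • tm H (tm H p r) (tm H q t) := by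
  unfold flat_mid
  simp only [Iso.trans_hom, Iso.symm_hom, whiskerLeftIso_hom, whiskerRightIso_hom, flat_comp]
  rw [assoc_tm, flat_wl, flat_comp, flat_comp, assoc_inv_tm, flat_wr, hs, tm_smul_left, map_smul,
    assoc_tm, tm_smul_right, map_smul, assoc_inv_tm]

private theorem flat_sq {s : F} (hs : s = 1 ∨ s = -1) : s * s = 1 := by
  rcases hs with rfl | rfl <;> norm_num

private theorem flat_exch [BraidedCategory C] {P Q R S : C} (hb : Br H Q R) :
    ∃ M ∈ ah H ((P ⊗ Q) ⊗ (R ⊗ S)) ((P ⊗ R) ⊗ (Q ⊗ S)),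
      ∃ M' ∈ ah H ((P ⊗ R) ⊗ (Q ⊗ S)) ((P ⊗ Q) ⊗ (R ⊗ S)),
        ∀ (p : H.obj P) (q : H.obj Q) (r : H.obj R) (t : H.obj S),
          M (tm H (tm H p q) (tm H r t)) = tm H (tm H p r) (tm H q t) ∧
          M' (tm H (tm H p r) (tm H q t)) = tm H (tm H p q) (tm H r t) := by
  obtain ⟨s, hs, h1⟩ := hb
  refine ⟨s • (H.map (flat_mid P Q R S).hom).hom, Submodule.smul_mem _ _ (ah_map H _),
    s • (H.map (flat_mid P Q R S).inv).hom, Submodule.smul_mem _ _ (ah_map H _),
    fun p q r t => ⟨?_, ?_⟩⟩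
  · rw [LinearMap.smul_apply, flat_mid_tm H h1, smul_smul, flat_sq hs, one_smul]
  · rw [LinearMap.smul_apply, ← map_smul, ← flat_mid_tm H h1, flat_inv_hom]

/-- the slots of `n + 1` blocks -/
private def flat_slots (n k : ℕ) : Fin k ⊕ (Fin n × Fin k) ≃ Fin (n + 1) × Fin k where
  toFun s := Sum.elim (fun i => (0, i)) (fun t => (t.1.succ, t.2)) s
  invFun s := Fin.cases (motive := fun _ => Fin k ⊕ (Fin n × Fin k)) (Sum.inl s.2)
    (fun t => Sum.inr (t, s.2)) s.1
  left_inv s := by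
    rcases s with i | ⟨t, i⟩ <;> rfl
  right_inv s := by
    obtain ⟨t, i⟩ := s
    refine Fin.cases ?_ (fun t => ?_) t <;> rfl

theorem flat [BraidedCategory C] {U Q : C} (hQ : Br H Q U) (k n : ℕ) :
    ∃ (N : ℕ) (φ : Fin N ≃ Fin n × Fin k),
      ∃ A ∈ ah H (pw (pw U k ⊗ Q) n) (pw U N ⊗ pw Q n),
      ∃ A' ∈ ah H (pw U N ⊗ pw Q n) (pw (pw U k ⊗ Q) n), ∀ x q,
        A (mm H k n x q) = tm H (ml H N (x ∘ φ)) (ml H n fun _ => q) ∧
        A' (tm H (ml H N (x ∘ φ)) (ml H n fun _ => q)) = mm H k n x q := by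
  induction n with
  | zero =>
    refine ⟨0, Equiv.equivOfIsEmpty _ _, (H.map (λ_ (𝟙_ C)).inv).hom, ah_map H _,
      (H.map (λ_ (𝟙_ C)).hom).hom, ah_map H _, fun x q => ⟨?_, ?_⟩⟩
    · exact left_inv_tm H (un H)
    · exact left_tm H (un H)
  | succ n ih =>
    obtain ⟨N, φ, A, hA, A', hA', h⟩ := ih
    obtain ⟨φ1, A1, hA1, A1', hA1', h1⟩ := cat_ml H U k N
    obtain ⟨M, hM, M', hM', h2⟩ := flat_exch H (P := pw U k) (S := pw Q n) (br_pw H hQ N)
    have key : ∀ x : Fin (n + 1) × Fin k → H.obj U,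
        x ∘ ((φ1.trans (Equiv.sumCongr (Equiv.refl (Fin k)) φ)).trans (flat_slots n k)) =
          Sum.elim (fun i => x (0, i)) ((fun s : Fin n × Fin k => x (s.1.succ, s.2)) ∘ φ) ∘ φ1 := by
      intro x
      funext j
      change x (flat_slots n k (Sum.map id φ (φ1 j))) =
        Sum.elim (fun i => x (0, i)) ((fun s : Fin n × Fin k => x (s.1.succ, s.2)) ∘ φ) (φ1 j)
      rcases φ1 j with i | m <;> rfl
    refine ⟨N + k, (φ1.trans (Equiv.sumCongr (Equiv.refl (Fin k)) φ)).trans (flat_slots n k),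
      tl H A1 LinearMap.id ∘ₗ M ∘ₗ tl H LinearMap.id A,
      ah_comp H (ah_comp H (ah_tl H (ah_id H _) hA) hM) (ah_tl H hA1 (ah_id H _)),
      tl H LinearMap.id A' ∘ₗ M' ∘ₗ tl H A1' LinearMap.id,
      ah_comp H (ah_comp H (ah_tl H hA1' (ah_id H _)) hM') (ah_tl H (ah_id H _) hA'),
      fun x q => ⟨?_, ?_⟩⟩
    · rw [key]
      change tl H A1 LinearMap.id (M (tl H LinearMap.id A
        (tm H (tm H (ml H k fun i => x (0, i)) q)
          (mm H k n (fun s : Fin n × Fin k => x (s.1.succ, s.2)) q)))) = _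
      rw [tl_tm, (h _ _).1, LinearMap.id_apply, (h2 _ _ _ _).1, tl_tm, (h1 _ _).1]
      rfl
    · rw [key]
      change tl H LinearMap.id A' (M' (tl H A1' LinearMap.id
        (tm H (ml H (N + k) (Sum.elim (fun i => x (0, i))
          ((fun s : Fin n × Fin k => x (s.1.succ, s.2)) ∘ φ) ∘ φ1))
          (tm H q (ml H n fun _ => q))))) =
        tm H (tm H (ml H k fun i => x (0, i)) q)
          (mm H k n (fun s : Fin n × Fin k => x (s.1.succ, s.2)) q)
      rw [tl_tm, (h1 _ _).2, LinearMap.id_apply, (h2 _ _ _ _).2, tl_tm, LinearMap.id_apply,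
        (h _ _).2]

end Pool.Agent.MUT
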