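import Pool.Agent.MUT.Ah

/-!
# MUT: the permutations of the factors of `U^(⊗ n)` are algebraic

The exchange on `U ⊗ U` is `s • H(β_{U,U})` (`Br`). The adjacent exchange `(k, k + 1)` on `pw U n`:
induction on `n` (`pw U (n + 2) = U ⊗ (U ⊗ pw U n)`; associator, `tl`). The set of the `σ` which are algebraic is closed under products and contains
`1`; the adjacent transpositions generate (`Equiv.Perm.mclosure_swap_castSucc_succ`).
-/

set_option linter.unusedSectionVars false
set_option linter.unusedVariables false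

namespace Pool.Agent.MUT

open CategoryTheory MonoidalCategory Limits TensorProduct Pool.Agent.KTT

universe v u w w'

variable {C : Type u} [Category.{v} C] [MonoidalCategory C] [BraidedCategory C]
  {F : Type w} [Field F] (H : C ⥤ ModuleCat.{w} F) [H.Monoidal]

private theorem PermU_swap {U : C} (hb : Br H U U) :
    ∃ E ∈ ah H (U ⊗ U) (U ⊗ U), ∀ x y : H.obj U, E (tm H x y) = tm H y x := by
  obtain ⟨s, hs, h1⟩ := hb
  refine ⟨s • (H.map (β_ U U).hom).hom, Submodule.smul_mem _ _ (ah_map H _), fun x y => ?_⟩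
  have hs2 : s * s = 1 := by
    rcases hs with rfl | rfl <;> norm_num
  rw [LinearMap.smul_apply, h1, smul_smul, hs2, one_smul]

private theorem PermU_adj {U : C} (hU : Br H U U) : ∀ (n : ℕ) (k : Fin n),
    ∃ T ∈ ah H (pw U (n + 1)) (pw U (n + 1)), ∀ x,
      T (ml H (n + 1) x) = ml H (n + 1) (x ∘ Equiv.swap k.castSucc k.succ) := by
  intro n
  induction n with
  | zero => intro k; exact k.elim0
  | succ n ih =>
    intro k
    refine Fin.cases ?_ ?_ k
    · obtain ⟨τ, hτ, hτ'⟩ := PermU_swap H hU
      refine ⟨(H.map (α_ U U (pw U n)).hom).hom ∘ₗ tl H τ LinearMap.id ∘ₗ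
        (H.map (α_ U U (pw U n)).inv).hom, ?_, ?_⟩
      · exact ah_comp H (ah_comp H (ah_map H _) (ah_tl H hτ (ah_id H _))) (ah_map H _)
      · intro x
        have e1 : ml H (n + 1 + 1) x = tm H (x 0) (tm H (x 1)
            (ml H n fun t => x t.succ.succ)) := rfl
        have e2 : ml H (n + 1 + 1) (x ∘ Equiv.swap (0 : Fin (n + 1)).castSucc
            (0 : Fin (n + 1)).succ) =
            tm H (x 1) (tm H (x 0) (ml H n fun t => x t.succ.succ)) := by
          have h0 : (x ∘ Equiv.swap (0 : Fin (n + 1)).castSucc (0 : Fin (n + 1)).succ) 0 = x 1 := by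
            simp
          have h1 : (x ∘ Equiv.swap (0 : Fin (n + 1)).castSucc (0 : Fin (n + 1)).succ) 1 = x 0 := by
            simp
          have h2 : (fun t : Fin n => (x ∘ Equiv.swap (0 : Fin (n + 1)).castSucc
              (0 : Fin (n + 1)).succ) t.succ.succ) = fun t => x t.succ.succ := by
            funext t
            have h3 : t.succ.succ ≠ (0 : Fin (n + 2)) := Fin.succ_ne_zero _
            have h4 : t.succ.succ ≠ (1 : Fin (n + 2)) := by
              rw [← Fin.succ_zero_eq_one]
              exact fun h => Fin.succ_ne_zero _ (Fin.succ_injective _ h)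
            simp only [Function.comp_apply, Fin.castSucc_zero, Fin.succ_zero_eq_one]
            rw [Equiv.swap_apply_of_ne_of_ne h3 h4]
          rw [← h2]
          exact congrArg₂ (fun a b => tm H a (tm H b _)) h0 h1
        have h := assoc_inv_tm H (x 0) (x 1) (ml H n fun t => x t.succ.succ)
        have h' := tl_tm H τ (LinearMap.id : H.obj (pw U n) →ₗ[F] H.obj (pw U n))
          (tm H (x 0) (x 1)) (ml H n fun t => x t.succ.succ)
        rw [hτ', LinearMap.id_apply, ← h] at h'
        rw [e2, e1]
        exact (congrArg (H.map (α_ U U (pw U n)).hom).hom h').trans (assoc_tm H _ _ _)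
    · intro k'
      obtain ⟨T, hT, hT'⟩ := ih k'
      refine ⟨tl H LinearMap.id T, ah_tl H (ah_id H _) hT, ?_⟩
      intro x
      have e1 : ml H (n + 1 + 1) x = tm H (x 0) (ml H (n + 1) fun t => x t.succ) := rfl
      have h0 : (x ∘ Equiv.swap k'.succ.castSucc k'.succ.succ) 0 = x 0 := by
        have h1 : (0 : Fin (n + 2)) ≠ k'.succ.castSucc := by
          rw [Fin.castSucc_succ]
          exact (Fin.succ_ne_zero _).symm
        have h2 : (0 : Fin (n + 2)) ≠ k'.succ.succ := (Fin.succ_ne_zero _).symm
        simp only [Function.comp_apply]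
        rw [Equiv.swap_apply_of_ne_of_ne h1 h2]
      have h1 : (fun t : Fin (n + 1) => (x ∘ Equiv.swap k'.succ.castSucc k'.succ.succ) t.succ) =
          (fun t => x t.succ) ∘ Equiv.swap k'.castSucc k'.succ := by
        funext t
        simp only [Function.comp_apply]
        congr 1
        rw [Fin.castSucc_succ, (Fin.succ_injective (n + 1)).swap_apply]
      have e2 : ml H (n + 1 + 1) (x ∘ Equiv.swap k'.succ.castSucc k'.succ.succ) =
          tm H (x 0) (ml H (n + 1) ((fun t => x t.succ) ∘ Equiv.swap k'.castSucc k'.succ)) := by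
        rw [← h1]
        exact congrArg (fun a => tm H a _) h0
      have h := tl_tm H (LinearMap.id : H.obj U →ₗ[F] H.obj U) T (x 0)
        (ml H (n + 1) fun t => x t.succ)
      rw [hT', LinearMap.id_apply] at h
      rw [e2, e1]
      exact h

private theorem PermU_one {U : C} (n : ℕ) :
    ∃ A ∈ ah H (pw U n) (pw U n), ∀ x,
      A (ml H n x) = ml H n (x ∘ ((1 : Equiv.Perm (Fin n)) : Fin n → Fin n)) :=
  ⟨LinearMap.id, ah_id H _, fun x => rfl⟩

theorem perm_ml {U : C} (hU : Br H U U) (n : ℕ) (σ : Equiv.Perm (Fin n)) :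
    ∃ A ∈ ah H (pw U n) (pw U n), ∀ x, A (ml H n x) = ml H n (x ∘ σ) := by
  cases n with
  | zero =>
    have : σ = 1 := Subsingleton.elim _ _
    rw [this]
    exact PermU_one H _
  | succ n =>
    have hσ : σ ∈ Submonoid.closure (Set.range fun k : Fin n => Equiv.swap k.castSucc k.succ) := by
      rw [Equiv.Perm.mclosure_swap_castSucc_succ]
      trivial
    induction hσ using Submonoid.closure_induction with
    | mem x hx =>
      obtain ⟨k, rfl⟩ := hx
      exact PermU_adj H hU n k
    | one => exact PermU_one H _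
    | mul σ τ _ _ hσ hτ =>
      obtain ⟨A, hA, hA'⟩ := hσ
      obtain ⟨A₂, hA₂, hA₂'⟩ := hτ
      refine ⟨A₂ ∘ₗ A, ah_comp H hA hA₂, fun x => ?_⟩
      rw [LinearMap.comp_apply, hA', hA₂']
      rfl

end Pool.Agent.MUT
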