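import Pool.Agent.KTT.Main

/-!
# MUT: definitions

Objects `B` with `H(B) ⊆ V_{c(1)} ⊗ ⋯ ⊗ V_{c(k)}`, where `V_1, …, V_l` are spaces of dimension `r` on which the group
acts, up to scalars, through a Zariski dense subset of `SL_r × ⋯ × SL_r`.
-/

namespace Pool.Agent.MUT

open CategoryTheory MonoidalCategory Limits TensorProduct Pool.Agent.KTT

universe v u w w'

section Mat

variable {F : Type w} [Field F] {l r : ℕ}

/-- `l` matrices of size `r`. -/
abbrev Tup (F : Type w) (l r : ℕ) := Fin l → Matrix (Fin r) (Fin r) F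

/-- The matrix of the tensor product of the `h_{c(s)}`, `s ∈ S`, on the tensor product of the
spaces `V_{c(s)} = F^r`: functions on `S → Fin r`. -/
def kr {S : Type*} [Fintype S] (c : S → Fin l) (h : Tup F l r) :
    Matrix (S → Fin r) (S → Fin r) F := Matrix.of fun a b => ∏ s, h (c s) (a s) (b s)

/-- All matrices have determinant one. -/
def Sl (h : Tup F l r) : Prop := ∀ i, (h i).det = 1

/-- The coordinates of `l` matrices. -/
def crd (h : Tup F l r) : Fin l × Fin r × Fin r → F := fun x => h x.1 x.2.1 x.2.2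

/-- Every polynomial in the coordinates which vanishes on `Γ` vanishes on `SL_r(F)^l`. -/
def Dense (Γ : Set (Tup F l r)) : Prop :=
  ∀ p : MvPolynomial (Fin l × Fin r × Fin r) F, (∀ h ∈ Γ, MvPolynomial.eval (crd h) p = 0) →
    ∀ h, Sl h → MvPolynomial.eval (crd h) p = 0

end Mat

section Cat

variable {C : Type u} [Category.{v} C] [MonoidalCategory C]
  {F : Type w} [Field F] (H : C ⥤ ModuleCat.{w} F)

omit [MonoidalCategory C] in
/-- The algebraic linear maps `H(X) → H(Y)`: the `F`-linear combinations of the realisations of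
morphisms. -/
def ah (X Y : C) : Submodule F (H.obj X →ₗ[F] H.obj Y) :=
  Submodule.span F {f | ∃ s : X ⟶ Y, f = (H.map s).hom}

/-- The tensor product of two vectors. -/
noncomputable def tm [H.Monoidal] {X Y : C} (x : H.obj X) (y : H.obj Y) : H.obj (X ⊗ Y) :=
  (Functor.LaxMonoidal.μ H X Y).hom (x ⊗ₜ[F] y)

/-- The commutativity isomorphism `X ⊗ Y → Y ⊗ X` is realised by the exchange of the factors, up
to a sign. -/
def Br [BraidedCategory C] [H.Monoidal] (X Y : C) : Prop :=
  ∃ s : F, (s = 1 ∨ s = -1) ∧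
    ∀ (x : H.obj X) (y : H.obj Y), (H.map (β_ X Y).hom).hom (tm H x y) = s • tm H y x

/-- The `n`-th tensor power `B ⊗ (B ⊗ ⋯)`. -/
def pw (B : C) : ℕ → C
  | 0 => 𝟙_ C
  | n + 1 => B ⊗ pw B n

/-- The tensor product of the vectors `x 0, …, x (n - 1)`. -/
noncomputable def ml [H.Monoidal] {B : C} : (n : ℕ) → (Fin n → H.obj B) → H.obj (pw B n)
  | 0, _ => (Functor.LaxMonoidal.ε H).hom (1 : F)
  | n + 1, x => tm H (x 0) (ml n fun k => x k.succ)

/-- The element `g` acts on the vectors `j i x` by scalars times the matrices `h i`, and on `q` by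
a scalar. -/
def Acts {G : Type w'} [Group G] (ρ : G →* Aut H) {l r : ℕ} {U Q : C}
    (j : Fin l → Fin r → H.obj U) (q : H.obj Q) (g : G) (h : Tup F l r) : Prop :=
  (∀ i, ∃ a : F, ∀ x, ((ρ g).hom.app U).hom (j i x) = a • ∑ y, h i y x • j i y) ∧
    ∃ a : F, ((ρ g).hom.app Q).hom q = a • q

/-- The object `B` is of tensor type: there are objects `U`, `Q` and `V_1, …, V_l ⊆ H(U)`,
`q ∈ H(Q)` such that `B` is algebraically a direct factor of `U^(⊗ k) ⊗ Q` with
`H(B) ⊆ V_{c(1)} ⊗ ⋯ ⊗ V_{c(k)} ⊗ q`; the group acts on the `V_i = F^r` up to scalars by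
matrices, which are Zariski dense in `SL_r × ⋯ × SL_r`. Examples: the motive `h^1(A)`, `A` an
abelian fourfold of Mumford's type (`r = 2`, `l = k = 3`, `c` the identity), or `A` an abelian
variety of dimension ten with `H^1(A) = Λ^3 V`, `dim V = 6` (`r = 6`, `l = 1`, `k = 3`). -/
structure TensorType [BraidedCategory C] [H.Monoidal] {G : Type w'} [Group G] (ρ : G →* Aut H)
    (B : C) where
  tens : ∀ g, NatTrans.IsMonoidal (ρ g).hom
  homothety : ∃ (g : G) (c : F), (∀ v, ((ρ g).hom.app B).hom v = c • v) ∧ ∀ n : ℕ, 0 < n → c ^ n ≠ 1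
  l : ℕ
  r : ℕ
  /-- `H(U)` contains the `V_i` -/
  U : C
  /-- a twist -/
  Q : C
  braid_U : Br H U U
  braid_Q : Br H Q U
  /-- bases of the `V_i` -/
  j : Fin l → Fin r → H.obj U
  j_indep : ∀ i, LinearIndependent F (j i)
  q : H.obj Q
  q_ne : q ≠ 0
  act : ∀ g, ∃ h : Tup F l r, Sl h ∧ Acts H ρ j q g h
  dense : Dense {h : Tup F l r | Sl h ∧ ∃ g, Acts H ρ j q g h}
  k : ℕ
  c : Fin k → Fin l
  /-- the inclusion -/
  up : H.obj B →ₗ[F] H.obj (pw U k ⊗ Q)
  up_mem : up ∈ ah H B (pw U k ⊗ Q)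
  /-- the coordinates of the inclusion -/
  e : H.obj B →ₗ[F] ((Fin k → Fin r) → F)
  up_eq : ∀ v, up v = ∑ a, e v a • tm H (ml H k fun t => j (c t) (a t)) q
  /-- the projection -/
  down : H.obj (pw U k ⊗ Q) →ₗ[F] H.obj B
  down_mem : down ∈ ah H (pw U k ⊗ Q) B
  down_up : ∀ v, down (up v) = v

end Cat

end Pool.Agent.MUT
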