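import Pool.Agent.MUT.Defs

/-!
# MUT: from a Zariski dense set to all matrices

A functional which vanishes on the matrices `kr c h`, `h ∈ Γ`, is a polynomial in the coordinates of `h`; it vanishes
on `Sl`, so, by scaling, on all `h` with nonzero determinants, so everywhere (add a multiple of the unit matrix).
-/

set_option linter.unusedSectionVars false
set_option linter.unusedVariables false

namespace Pool.Agent.MUT

universe w

variable {F : Type w} [Field F] {l r : ℕ}

/-- the polynomial of a functional -/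
private noncomputable def densP {S : Type} [Fintype S] [DecidableEq S] (c : S → Fin l)
    (L : Matrix (S → Fin r) (S → Fin r) F →ₗ[F] F) : MvPolynomial (Fin l × Fin r × Fin r) F :=
  ∑ a : S → Fin r, ∑ b : S → Fin r, MvPolynomial.C (L (Matrix.single a b 1)) *
    ∏ s, MvPolynomial.X (c s, a s, b s)

private theorem dens_eval {S : Type} [Fintype S] [DecidableEq S] (c : S → Fin l)
    (L : Matrix (S → Fin r) (S → Fin r) F →ₗ[F] F) (h : Tup F l r) :
    MvPolynomial.eval (crd h) (densP c L) = L (kr c h) := by
  classical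
  have h1 : kr c h = ∑ a : S → Fin r, ∑ b : S → Fin r, (∏ s, h (c s) (a s) (b s)) •
      Matrix.single a b (1 : F) := by
    conv_lhs => rw [Matrix.matrix_eq_sum_single (kr c h)]
    refine Finset.sum_congr rfl fun a _ => Finset.sum_congr rfl fun b _ => ?_
    rw [Matrix.smul_single, smul_eq_mul, mul_one]
    rfl
  rw [h1, densP]
  simp only [map_sum, map_smul, map_mul, map_prod, MvPolynomial.eval_C, MvPolynomial.eval_X,
    smul_eq_mul]
  refine Finset.sum_congr rfl fun a _ => Finset.sum_congr rfl fun b _ => ?_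
  rw [mul_comm]
  rfl

private theorem dens_smul {S : Type} [Fintype S] (c : S → Fin l) (t : Fin l → F)
    (h : Tup F l r) : kr c (fun i => t i • h i) = (∏ s, t (c s)) • kr c h := by
  ext a b
  simp only [kr, Matrix.of_apply, Matrix.smul_apply, smul_eq_mul, Finset.prod_mul_distrib]

private theorem dens_det [IsAlgClosed F] {Γ : Set (Tup F l r)} (hΓ : Dense Γ) {S : Type}
    [Fintype S] [DecidableEq S] (c : S → Fin l) (L : Matrix (S → Fin r) (S → Fin r) F →ₗ[F] F)
    (h0 : ∀ h ∈ Γ, L (kr c h) = 0) (h : Tup F l r) (hd : ∀ i, (h i).det ≠ 0) :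
    L (kr c h) = 0 := by
  rcases Nat.eq_zero_or_pos r with hr | hr
  · subst hr
    have h3 := hΓ (densP c L) (fun g hg => by rw [dens_eval]; exact h0 g hg) h
      (fun i => Matrix.det_isEmpty)
    rwa [dens_eval] at h3
  have h1 : ∀ i, ∃ t : F, t ^ r = (h i).det⁻¹ := fun i =>
    IsAlgClosed.exists_pow_nat_eq _ hr
  choose t ht using h1
  have ht0 : ∀ i, t i ≠ 0 := by
    intro i h2
    have h3 := ht i
    rw [h2, zero_pow hr.ne'] at h3
    exact inv_ne_zero (hd i) h3.symm
  have h2 : Sl (fun i => t i • h i) := by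
    intro i
    rw [Matrix.det_smul, Fintype.card_fin, ht, inv_mul_cancel₀ (hd i)]
  have h3 := hΓ (densP c L) (fun g hg => by rw [dens_eval]; exact h0 g hg) _ h2
  rw [dens_eval, dens_smul, map_smul, smul_eq_mul] at h3
  exact (mul_eq_zero.1 h3).resolve_left (Finset.prod_ne_zero_iff.2 fun s _ => ht0 (c s))

private theorem dens_all [IsAlgClosed F] {Γ : Set (Tup F l r)} (hΓ : Dense Γ) {S : Type}
    [Fintype S] [DecidableEq S] (c : S → Fin l) (L : Matrix (S → Fin r) (S → Fin r) F →ₗ[F] F)
    (h0 : ∀ h ∈ Γ, L (kr c h) = 0) (h : Tup F l r) : L (kr c h) = 0 := by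
  classical
  have : Infinite F := IsAlgClosed.instInfinite
  let f : Fin l × Fin r × Fin r → Polynomial F := fun x =>
    Polynomial.C (h x.1 x.2.1 x.2.2) + if x.2.1 = x.2.2 then Polynomial.X else 0
  let q : Polynomial F := MvPolynomial.aeval f (densP c L)
  let hs : F → Tup F l r := fun s i => h i + s • (1 : Matrix (Fin r) (Fin r) F)
  have hf : ∀ s x, (f x).eval s = crd (hs s) x := by
    intro s x
    simp only [f, crd, hs, Polynomial.eval_add, Polynomial.eval_C, Matrix.add_apply,
      Matrix.smul_apply, Matrix.one_apply, smul_eq_mul, mul_ite, mul_one, mul_zero]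
    split_ifs with h1
    · rw [Polynomial.eval_X]
    · rw [Polynomial.eval_zero]
  have hq : ∀ s, q.eval s = L (kr c (hs s)) := by
    intro s
    rw [← dens_eval]
    have h1 : (Polynomial.evalRingHom s).comp (MvPolynomial.aeval f).toRingHom =
        MvPolynomial.eval (crd (hs s)) := by
      apply MvPolynomial.ringHom_ext
      · intro r
        simp
      · intro x
        simp [hf s x]
    exact congrArg (fun g : MvPolynomial (Fin l × Fin r × Fin r) F →+* F => g (densP c L)) h1
  let D : Polynomial F := ∏ i : Fin l, (-(h i)).charpoly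
  have hD : ∀ s, D.eval s = ∏ i, (hs s i).det := by
    intro s
    rw [Polynomial.eval_prod]
    refine Finset.prod_congr rfl fun i _ => ?_
    rw [Matrix.eval_charpoly]
    congr 1
    ext a b
    simp only [hs, Matrix.add_apply, Matrix.sub_apply, Matrix.neg_apply, Matrix.smul_apply,
      Matrix.scalar_apply, Matrix.diagonal_apply, Matrix.one_apply, smul_eq_mul, mul_ite, mul_one,
      mul_zero]
    ring
  have hD0 : D ≠ 0 := Finset.prod_ne_zero_iff.2 fun i _ => (Matrix.charpoly_monic _).ne_zero
  have hqD : q * D = 0 := by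
    apply Polynomial.funext
    intro s
    rw [Polynomial.eval_mul, Polynomial.eval_zero, hq, hD]
    by_cases hc : ∀ i, (hs s i).det ≠ 0
    · rw [dens_det hΓ c L h0 _ hc, zero_mul]
    · push Not at hc
      obtain ⟨i, hi⟩ := hc
      rw [Finset.prod_eq_zero (Finset.mem_univ i) hi, mul_zero]
  have hq0 : q = 0 := (mul_eq_zero.1 hqD).resolve_right hD0
  have h1 := hq 0
  rw [hq0, Polynomial.eval_zero] at h1
  have h2 : hs 0 = h := by
    funext i
    simp only [hs, zero_smul, add_zero]
  rw [h2] at h1
  exact h1.symm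

theorem span_dense [IsAlgClosed F] {Γ : Set (Tup F l r)} (hΓ : Dense Γ) {S : Type} [Fintype S]
    [DecidableEq S] (c : S → Fin l) (h : Tup F l r) :
    kr c h ∈ Submodule.span F (kr (F := F) c '' Γ) := by
  by_contra hcon
  obtain ⟨L, hL, hL0⟩ := Submodule.exists_le_ker_of_notMem hcon
  exact hL (dens_all hΓ c L (fun g hg => hL0 (Submodule.subset_span ⟨g, hg, rfl⟩)) h)

end Pool.Agent.MUT
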