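import Pool.Agent.MUT.Pol
import Pool.Agent.MUT.Dens
import Pool.Agent.MUM.L.DC

/-!
# MUT: Schur-Weyl duality with colours for a Zariski dense set

The group is the group of the permutations of `S` which preserve `c`, with the representation `σ ↦ pm σ`. Its commutant
consists of the matrices as in `sym_mem_span`, so by `span_dense` of the combinations of the `kr c h`, `h ∈ Γ`;
`MUM.comm_comm` and `MUM.exists_compl` give both theorems.
-/

set_option linter.unusedSectionVars false
set_option linter.unusedVariables false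

namespace Pool.Agent.MUT

universe w

variable {F : Type w} [Field F] {l r : ℕ}

/-- The operator of a permutation of the slots. -/
def pm {S : Type} (σ : Equiv.Perm S) : ((S → Fin r) → F) →ₗ[F] ((S → Fin r) → F) :=
  LinearMap.funLeft F F fun a : S → Fin r => a ∘ σ

/-- the permutations which preserve the colours -/
private def mtsG {S : Type} (c : S → Fin l) : Subgroup (Equiv.Perm S) where
  carrier := {σ | ∀ s, c (σ s) = c s}
  mul_mem' := fun {σ τ} hσ hτ s => by rw [Equiv.Perm.mul_apply, hσ, hτ]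
  one_mem' := fun s => rfl
  inv_mem' := fun {σ} hσ s => by
    have h := hσ (σ⁻¹ s)
    have h1 : σ (σ⁻¹ s) = s := σ.apply_symm_apply s
    rw [h1] at h
    exact h.symm

/-- the representation -/
private def mtsR (F : Type w) [Field F] (r : ℕ) {S : Type} (c : S → Fin l) :
    Representation F (mtsG c) ((S → Fin r) → F) where
  toFun σ := pm (σ : Equiv.Perm S)
  map_one' := rfl
  map_mul' _ _ := rfl

/-- composition with `σ` as a permutation -/
private def mtsE {S : Type} (r : ℕ) (σ : Equiv.Perm S) : Equiv.Perm (S → Fin r) where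
  toFun a := a ∘ σ
  invFun a := a ∘ σ.symm
  left_inv a := by
    funext s
    show a (σ (σ.symm s)) = a s
    rw [Equiv.apply_symm_apply]
  right_inv a := by
    funext s
    show a (σ.symm (σ s)) = a s
    rw [Equiv.symm_apply_apply]

private theorem mts_kr {S : Type} [Fintype S] (c : S → Fin l) (h : Tup F l r)
    (σ : Equiv.Perm S) (hσ : ∀ s, c (σ s) = c s) (a b : S → Fin r) :
    kr c h (a ∘ σ) (b ∘ σ) = kr c h a b := by
  show (∏ s, h (c s) (a (σ s)) (b (σ s))) = ∏ s, h (c s) (a s) (b s)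
  rw [← Equiv.prod_comp σ fun s => h (c s) (a s) (b s)]
  exact Finset.prod_congr rfl fun s _ => by rw [hσ]

private theorem mts_comm {S : Type} [Fintype S] [DecidableEq S]
    (X : Matrix (S → Fin r) (S → Fin r) F) (σ : Equiv.Perm S)
    (hX : ∀ a b : S → Fin r, X (a ∘ σ) (b ∘ σ) = X a b) (v : (S → Fin r) → F) :
    pm σ (X.mulVec v) = X.mulVec (pm σ v) := by
  funext a
  show ∑ b, X (a ∘ σ) b * v b = ∑ b, X a b * v (b ∘ σ)
  rw [← Equiv.sum_comp (mtsE r σ)]
  refine Finset.sum_congr rfl fun b _ => ?_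
  show X (a ∘ σ) (b ∘ σ) * v (b ∘ σ) = _
  rw [hX]

private theorem mts_sym {S : Type} [Fintype S] [DecidableEq S]
    (X : Matrix (S → Fin r) (S → Fin r) F) (σ : Equiv.Perm S)
    (h : ∀ v, pm σ (X.mulVec v) = X.mulVec (pm σ v)) (a b : S → Fin r) :
    X (a ∘ σ) (b ∘ σ) = X a b := by
  have h1 := congrFun (h (Pi.single (b ∘ σ) 1)) a
  have h2 : pm (F := F) (r := r) σ (Pi.single (b ∘ σ) 1) = Pi.single b 1 := by
    funext d
    show (Pi.single (b ∘ σ) 1 : (S → Fin r) → F) (d ∘ σ) = (Pi.single b 1 : (S → Fin r) → F) d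
    by_cases hc : d = b
    · subst hc
      rw [Pi.single_eq_same, Pi.single_eq_same]
    · have hc' : d ∘ σ ≠ b ∘ σ := fun e => hc ((mtsE r σ).injective e)
      rw [Pi.single_eq_of_ne hc', Pi.single_eq_of_ne hc]
  rw [h2] at h1
  have h3 : pm (F := F) (r := r) σ (X.mulVec (Pi.single (b ∘ σ) 1)) a = X (a ∘ σ) (b ∘ σ) := by
    show X.mulVec (Pi.single (b ∘ σ) 1) (a ∘ σ) = _
    rw [Matrix.mulVec_single_one]
    rfl
  rw [h3, Matrix.mulVec_single_one] at h1
  exact h1

/-- the commutant -/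
private theorem mts_span [CharZero F] [IsAlgClosed F] {Γ : Set (Tup F l r)} (hΓ : Dense Γ)
    {S : Type} [Fintype S] [DecidableEq S] (c : S → Fin l)
    (T : ((S → Fin r) → F) →ₗ[F] ((S → Fin r) → F)) (hT : MUM.Comm (mtsR F r c) T) :
    ∃ X ∈ Submodule.span F (kr (F := F) c '' Γ), T = Matrix.mulVecLin X := by
  have h1 : ∀ v, T v = (LinearMap.toMatrix' T).mulVec v := by
    intro v
    rw [← Matrix.toLin'_apply, Matrix.toLin'_toMatrix']
  refine ⟨LinearMap.toMatrix' T, ?_, LinearMap.ext h1⟩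
  have h2 : LinearMap.toMatrix' T ∈ Submodule.span F (Set.range (kr (F := F) (r := r) c)) := by
    refine sym_mem_span c _ fun σ hσ a b => ?_
    refine mts_sym _ σ (fun v => ?_) a b
    rw [← h1, ← h1]
    exact LinearMap.congr_fun (hT ⟨σ, hσ⟩) v
  refine (Submodule.span_le.2 ?_) h2
  rintro _ ⟨h, rfl⟩
  exact span_dense hΓ c h

private theorem mts_kr_comm {S : Type} [Fintype S] [DecidableEq S] (c : S → Fin l)
    (h : Tup F l r) : MUM.Comm (mtsR F r c) (kr c h).mulVecLin := by
  rintro ⟨σ, hσ⟩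
  refine LinearMap.ext fun v => ?_
  exact mts_comm (kr c h) σ (mts_kr c h σ hσ) v

private theorem mts_smul {S : Type} [Fintype S] [DecidableEq S] (x : F) (X : Matrix (S → Fin r) (S → Fin r) F) :
    (x • X).mulVecLin = x • X.mulVecLin := by
  ext v i
  simp

theorem comm_dense [CharZero F] [IsAlgClosed F] {Γ : Set (Tup F l r)} (hΓ : Dense Γ) {S : Type}
    [Fintype S] [DecidableEq S] (c : S → Fin l) (f : ((S → Fin r) → F) →ₗ[F] ((S → Fin r) → F))
    (hf : ∀ h ∈ Γ, f ∘ₗ (kr c h).mulVecLin = (kr c h).mulVecLin ∘ₗ f) :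
    f ∈ Submodule.span F {p | ∃ σ : Equiv.Perm S, (∀ s, c (σ s) = c s) ∧ p = pm σ} := by
  have h1 : f ∈ Submodule.span F (Set.range (mtsR F r c)) := by
    refine MUM.comm_comm (mtsR F r c) f fun T hT => ?_
    obtain ⟨X, hX, rfl⟩ := mts_span hΓ c T hT
    refine Submodule.span_induction (p := fun X _ => f ∘ₗ X.mulVecLin = X.mulVecLin ∘ₗ f)
      ?_ ?_ ?_ ?_ hX
    · rintro _ ⟨h', hh', rfl⟩
      exact hf h' hh'
    · rw [Matrix.mulVecLin_zero, LinearMap.comp_zero, LinearMap.zero_comp]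
    · intro X Y _ _ hX hY
      rw [Matrix.mulVecLin_add, LinearMap.comp_add, LinearMap.add_comp, hX, hY]
    · intro x X _ hX
      rw [mts_smul, LinearMap.comp_smul, LinearMap.smul_comp, hX]
  refine (Submodule.span_le.2 ?_) h1
  rintro _ ⟨⟨σ, hσ⟩, rfl⟩
  exact Submodule.subset_span ⟨σ, hσ, rfl⟩

theorem compl_dense [CharZero F] [IsAlgClosed F] {Γ : Set (Tup F l r)} (hΓ : Dense Γ) {S : Type}
    [Fintype S] [DecidableEq S] (c : S → Fin l) (W : Submodule F ((S → Fin r) → F))
    (hW : ∀ h ∈ Γ, ∀ v ∈ W, (kr c h).mulVec v ∈ W) :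
    ∃ W' : Submodule F ((S → Fin r) → F), (∀ h ∈ Γ, ∀ v ∈ W', (kr c h).mulVec v ∈ W') ∧
      IsCompl W W' := by
  obtain ⟨W', h1, h2⟩ := MUM.exists_compl (mtsR F r c) W (fun T hT => by
    obtain ⟨X, hX, rfl⟩ := mts_span hΓ c T hT
    refine Submodule.span_induction (p := fun X _ => ∀ v ∈ W, X.mulVecLin v ∈ W)
      ?_ ?_ ?_ ?_ hX
    · rintro _ ⟨h', hh', rfl⟩
      exact hW h' hh'
    · intro v _
      rw [Matrix.mulVecLin_zero]
      exact W.zero_mem
    · intro X Y _ _ hX hY v hv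
      rw [Matrix.mulVecLin_add]
      exact W.add_mem (hX v hv) (hY v hv)
    · intro x X _ hX v hv
      rw [mts_smul]
      exact W.smul_mem x (hX v hv))
  exact ⟨W', fun h _ v hv => h2 _ (mts_kr_comm c h) v hv, h1⟩

end Pool.Agent.MUT
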