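import Pool.Agent.MUT.Jm
import Pool.Agent.MUT.Schur

/-!
# MUT: semisimplicity of all tensor words, without duals

Port of `MUM.SsA` (helper60). `Emb W`: `H(W)` is an equivariant direct factor (up to scalars) of a tensor word of the `V_i`.
`emb_base`: `S = Fin k`, `E = M.e`, `P x = M.down (J1 x)`; `E (ρ v) = b • kr c h (E v)` because `J1` is injective and `J1 (e (ρ v)) = up (ρ v) = ρ (up v) = ρ (J1 (e v))`
(`up` is algebraic, `nat_ah`), `J1_act`. `emb_tensor`: `S ⊕ S'`. `emb_ss`: a stable subspace `X` of `H(W)`, `N = E(X)`, stable under `kr c h`, `h ∈ Γ` (`b ≠ 0`); complement `N'`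
(`compl_dense`); `E⁻¹(N')` is a stable complement of `X` (if `E v = n + n'` then `n = E x`, `n' = E (v - x)`).
-/

set_option linter.unusedSectionVars false
set_option linter.unusedVariables false

namespace Pool.Agent.MUT

open CategoryTheory MonoidalCategory Limits TensorProduct Pool.Agent.KTT

universe v u w w'

variable {C : Type u} [Category.{v} C] [MonoidalCategory C]
  {F : Type w} [Field F] (H : C ⥤ ModuleCat.{w} F) [H.Monoidal]
  {G : Type w'} [Group G] (ρ : G →* Aut H) {l r : ℕ} {U Q : C}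
  (j : Fin l → Fin r → H.obj U) (q : H.obj Q)

/-- `H(W)` is an equivariant direct factor of a tensor word of the `V_i`, up to scalars. -/
def Emb (W : C) : Prop :=
  ∃ (S : Type) (_ : Fintype S) (_ : DecidableEq S) (c : S → Fin l)
    (E : H.obj W →ₗ[F] ((S → Fin r) → F)) (P : ((S → Fin r) → F) →ₗ[F] H.obj W),
    (∀ v, P (E v) = v) ∧ ∀ g (h : Tup F l r), Sl h → Acts H ρ j q g h → ∃ b : F, b ≠ 0 ∧
      (∀ v, E (((ρ g).hom.app W).hom v) = b • (kr c h).mulVec (E v)) ∧
      ∀ x, ((ρ g).hom.app W).hom (P x) = b • P ((kr c h).mulVec x)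

/-- the coordinates of the tensor product of two coordinate spaces -/
private noncomputable def embaPhi (F : Type w) [Field F] (r : ℕ) (S S' : Type) [Fintype S]
    [DecidableEq S] [Fintype S'] [DecidableEq S'] :
    (((S → Fin r) → F) ⊗[F] ((S' → Fin r) → F)) ≃ₗ[F] ((S ⊕ S' → Fin r) → F) :=
  ((((Pi.basisFun F (S → Fin r)).tensorProduct (Pi.basisFun F (S' → Fin r))).equivFun).trans
    (LinearEquiv.funCongrLeft F F (Equiv.sumArrowEquivProdArrow S S' (Fin r))))

private theorem embaPhi_tmul (S S' : Type) [Fintype S] [DecidableEq S] [Fintype S']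
    [DecidableEq S'] (x : (S → Fin r) → F) (y : (S' → Fin r) → F) (a : S ⊕ S' → Fin r) :
    embaPhi F r S S' (x ⊗ₜ[F] y) a = x (a ∘ Sum.inl) * y (a ∘ Sum.inr) := by
  unfold embaPhi
  rw [LinearEquiv.trans_apply, LinearEquiv.funCongrLeft_apply, LinearMap.funLeft_apply,
    Module.Basis.equivFun_apply]
  have h3 : Equiv.sumArrowEquivProdArrow S S' (Fin r) a = (a ∘ Sum.inl, a ∘ Sum.inr) := rfl
  rw [h3, Module.Basis.tensorProduct_repr_tmul_apply]
  simp [mul_comm]

private theorem emba_kr (S S' : Type) [Fintype S] [DecidableEq S] [Fintype S'] [DecidableEq S']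
    (c : S → Fin l) (c' : S' → Fin l) (h : Tup F l r) (x : (S → Fin r) → F)
    (y : (S' → Fin r) → F) :
    (kr (Sum.elim c c') h).mulVec (embaPhi F r S S' (x ⊗ₜ[F] y)) =
      embaPhi F r S S' (((kr c h).mulVec x) ⊗ₜ[F] ((kr c' h).mulVec y)) := by
  funext a
  rw [embaPhi_tmul, Matrix.mulVec, Matrix.mulVec, Matrix.mulVec, dotProduct, dotProduct,
    dotProduct, ← Equiv.sum_comp (Equiv.sumArrowEquivProdArrow S S' (Fin r)).symm,
    Fintype.sum_prod_type, Finset.sum_mul_sum]
  refine Finset.sum_congr rfl fun b _ => Finset.sum_congr rfl fun b' _ => ?_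
  rw [embaPhi_tmul]
  have h1 : (Equiv.sumArrowEquivProdArrow S S' (Fin r)).symm (b, b') ∘ Sum.inl = b := by
    funext s
    rfl
  have h2 : (Equiv.sumArrowEquivProdArrow S S' (Fin r)).symm (b, b') ∘ Sum.inr = b' := by
    funext s
    rfl
  rw [h1, h2]
  have h3 : kr (Sum.elim c c') h a ((Equiv.sumArrowEquivProdArrow S S' (Fin r)).symm (b, b')) =
      kr c h (a ∘ Sum.inl) b * kr c' h (a ∘ Sum.inr) b' := by
    simp only [kr, Matrix.of_apply, Fintype.prod_sum_type, Sum.elim_inl, Sum.elim_inr,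
      Function.comp_apply]
    rfl
  rw [h3]
  ring

theorem emb_base [BraidedCategory C] {B : C} (M : TensorType H ρ B) : Emb H ρ M.j M.q B := by
  have hup : ∀ v, J1 H M.j M.q M.c (M.e v) = M.up v := fun v => (M.up_eq v).symm
  refine ⟨Fin M.k, inferInstance, inferInstance, M.c, M.e, M.down ∘ₗ J1 H M.j M.q M.c, ?_, ?_⟩
  · intro v
    rw [LinearMap.comp_apply, hup, M.down_up]
  · intro g h hs hg
    have hm := M.tens g
    obtain ⟨b, hb, hJ⟩ := J1_act H M.j M.q M.c ρ M.j_indep M.q_ne hg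
    refine ⟨b, hb, ?_, ?_⟩
    · intro v
      apply J1_inj H M.j M.q M.c M.j_indep M.q_ne
      rw [hup, nat_ah H (ρ g).hom M.up_mem, ← hup, hJ, map_smul]
    · intro x
      rw [LinearMap.comp_apply, LinearMap.comp_apply, ← nat_ah H (ρ g).hom M.down_mem, hJ,
        map_smul]

theorem emb_tensor (ht : ∀ g, NatTrans.IsMonoidal (ρ g).hom) {W W' : C} (h : Emb H ρ j q W)
    (h' : Emb H ρ j q W') : Emb H ρ j q (W ⊗ W') := by
  obtain ⟨S, iS, dS, c, E, P, hPE, hA⟩ := h
  obtain ⟨S', iS', dS', c', E', P', hPE', hA'⟩ := h'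
  have hdm : ∀ (x : H.obj W) (y : H.obj W'),
      (Functor.OplaxMonoidal.δ H W W').hom (tm H x y) = x ⊗ₜ[F] y := fun x y =>
    LinearMap.congr_fun (congrArg ModuleCat.Hom.hom (Functor.Monoidal.μ_δ H W W')) (x ⊗ₜ[F] y)
  obtain ⟨EE, hEE⟩ : ∃ EE : H.obj (W ⊗ W') →ₗ[F] ((S ⊕ S' → Fin r) → F),
      ∀ x y, EE (tm H x y) = embaPhi F r S S' (E x ⊗ₜ[F] E' y) := by
    refine ⟨(embaPhi F r S S').toLinearMap ∘ₗ TensorProduct.map E E' ∘ₗ
      (Functor.OplaxMonoidal.δ H W W').hom, ?_⟩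
    intro x y
    change embaPhi F r S S' (TensorProduct.map E E'
      ((Functor.OplaxMonoidal.δ H W W').hom (tm H x y))) = _
    rw [hdm, TensorProduct.map_tmul]
  obtain ⟨PP, hPP⟩ : ∃ PP : ((S ⊕ S' → Fin r) → F) →ₗ[F] H.obj (W ⊗ W'),
      ∀ x y, PP (embaPhi F r S S' (x ⊗ₜ[F] y)) = tm H (P x) (P' y) := by
    refine ⟨(Functor.LaxMonoidal.μ H W W').hom ∘ₗ TensorProduct.map P P' ∘ₗ
      (embaPhi F r S S').symm.toLinearMap, ?_⟩
    intro x y
    change (Functor.LaxMonoidal.μ H W W').hom (TensorProduct.map P P'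
      ((embaPhi F r S S').symm (embaPhi F r S S' (x ⊗ₜ[F] y)))) = _
    rw [LinearEquiv.symm_apply_apply, TensorProduct.map_tmul]
    rfl
  refine ⟨S ⊕ S', inferInstance, inferInstance, Sum.elim c c', EE, PP, ?_, ?_⟩
  · have key : PP ∘ₗ EE = LinearMap.id := by
      refine tm_ext H ?_
      intro x y
      rw [LinearMap.comp_apply, hEE, hPP, hPE, hPE', LinearMap.id_apply]
    intro v
    exact LinearMap.congr_fun key v
  · intro g hh hs hg
    have hmon := ht g
    obtain ⟨b, hb, hE1, hP1⟩ := hA g hh hs hg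
    obtain ⟨b', hb', hE2, hP2⟩ := hA' g hh hs hg
    refine ⟨b * b', mul_ne_zero hb hb', ?_, ?_⟩
    · have key : EE ∘ₗ ((ρ g).hom.app (W ⊗ W')).hom =
          (b * b') • ((kr (Sum.elim c c') hh).mulVecLin ∘ₗ EE) := by
        refine tm_ext H ?_
        intro x y
        rw [LinearMap.comp_apply, nat_tm H (ρ g).hom x y, LinearMap.smul_apply,
          LinearMap.comp_apply, hEE, hEE, hE1, hE2, Matrix.mulVecLin_apply, emba_kr,
          TensorProduct.smul_tmul_smul, map_smul]
      intro v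
      exact LinearMap.congr_fun key v
    · have key : (((ρ g).hom.app (W ⊗ W')).hom ∘ₗ PP) ∘ₗ (embaPhi F r S S').toLinearMap =
          ((b * b') • (PP ∘ₗ (kr (Sum.elim c c') hh).mulVecLin)) ∘ₗ
            (embaPhi F r S S').toLinearMap := by
        refine TensorProduct.ext' ?_
        intro x y
        rw [LinearMap.comp_apply, LinearMap.comp_apply, LinearMap.comp_apply,
          LinearMap.smul_apply, LinearMap.comp_apply, Matrix.mulVecLin_apply,
          LinearEquiv.coe_coe, hPP, nat_tm H (ρ g).hom, emba_kr, hPP, hP1, hP2,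
          tm_smul_left, tm_smul_right, smul_smul]
      intro x
      have h1 := LinearMap.congr_fun key ((embaPhi F r S S').symm x)
      rw [LinearMap.comp_apply, LinearMap.comp_apply, LinearMap.comp_apply,
        LinearMap.smul_apply, LinearMap.comp_apply, Matrix.mulVecLin_apply,
        LinearEquiv.coe_coe, LinearEquiv.apply_symm_apply] at h1
      exact h1

theorem emb_ss [CharZero F] [IsAlgClosed F] (act : ∀ g, ∃ h : Tup F l r, Sl h ∧ Acts H ρ j q g h)
    (dense : Dense {h : Tup F l r | Sl h ∧ ∃ g, Acts H ρ j q g h}) {W : C}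
    (h : Emb H ρ j q W) : Semisimple H ρ W := by
  obtain ⟨S, iS, dS, c, E, P, hPE, hA⟩ := h
  intro X hX
  have hstab : ∀ h ∈ {h : Tup F l r | Sl h ∧ ∃ g, Acts H ρ j q g h},
      ∀ v ∈ X.map E, (kr c h).mulVec v ∈ X.map E := by
    rintro h ⟨hs, g, hg⟩ v ⟨x, hx, rfl⟩
    obtain ⟨b, hb, hE, -⟩ := hA g h hs hg
    refine ⟨b⁻¹ • ((ρ g).hom.app W).hom x, X.smul_mem _ (hX g x hx), ?_⟩
    rw [map_smul, hE x, smul_smul, inv_mul_cancel₀ hb, one_smul]
  obtain ⟨N, hN, hXN⟩ := compl_dense dense c (X.map E) hstab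
  refine ⟨N.comap E, ?_, ?_⟩
  · intro g v hv
    obtain ⟨h, hs, hg⟩ := act g
    obtain ⟨b, hb, hE, -⟩ := hA g h hs hg
    change E (((ρ g).hom.app W).hom v) ∈ N
    rw [hE v]
    exact N.smul_mem _ (hN h ⟨hs, g, hg⟩ _ hv)
  · rw [isCompl_iff]
    constructor
    · rw [Submodule.disjoint_def]
      intro x hx hx'
      have h1 : E x = 0 :=
        (Submodule.disjoint_def.1 hXN.disjoint) (E x) (Submodule.mem_map_of_mem hx) hx'
      rw [← hPE x, h1, map_zero]
    · rw [codisjoint_iff, eq_top_iff]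
      intro v _
      have h1 : E v ∈ X.map E ⊔ N := by
        rw [codisjoint_iff.1 hXN.codisjoint]
        exact Submodule.mem_top
      obtain ⟨n, hn, n', hn', h2⟩ := Submodule.mem_sup.1 h1
      obtain ⟨x, hx, rfl⟩ := hn
      refine Submodule.mem_sup.2 ⟨x, hx, v - x, ?_, by abel⟩
      change E (v - x) ∈ N
      rw [map_sub, ← h2, add_sub_cancel_left]
      exact hn'

end Pool.Agent.MUT
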