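import Pool.Agent.MUT.Defs

/-!
# MUT: the dual of a tensor word is a direct factor of a tensor word

The map `V^∨ → V^(⊗ (r - 1))` given by the alternating form. Let `lev_E τ`, `τ : Fin n → Fin n`, be the sign of `τ` if it is a
permutation and `0` otherwise. (1) `∑ τ, (∏ j, h (σ j) (τ j)) * lev_E τ = lev_E σ * det h`.
(2) `∑ a, lev_E (cons i a) * lev_E (cons j a) = (r - 1)! δ_ij`. Let `A (a) (b) = ∏ s, lev_E (cons (b s) (fun t => a (s, t)))` and
`A' = (r - 1)!^(-|S|) • Aᵀ`. `A' * A = 1` from (2), the first identity from (1) for `h`, the second from (1) for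
`hᵀ` by transposing.
-/

set_option linter.unusedSectionVars false
set_option linter.unusedVariables false

namespace Pool.Agent.MUT

universe w

variable {F : Type w} [Field F] {l r : ℕ}

/-- the sign of a permutation, `0` for the other maps -/
private noncomputable def lev_E (F : Type w) [Field F] {n : ℕ} (τ : Fin n → Fin n) : F :=
  ∑ π : Equiv.Perm (Fin n), ((Equiv.Perm.sign π : ℤ) : F) * (if τ = ⇑π then 1 else 0)

private theorem lev_E_perm {n : ℕ} (π : Equiv.Perm (Fin n)) :
    lev_E F (⇑π) = ((Equiv.Perm.sign π : ℤ) : F) := by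
  unfold lev_E
  rw [Finset.sum_eq_single π]
  · rw [if_pos rfl, mul_one]
  · intro π' _ h
    rw [if_neg, mul_zero]
    intro h2
    exact h (Equiv.coe_fn_injective h2).symm
  · intro h
    exact absurd (Finset.mem_univ _) h

private theorem lev_E_not {n : ℕ} {τ : Fin n → Fin n} (h : ¬ Function.Injective τ) :
    lev_E F τ = 0 := by
  unfold lev_E
  refine Finset.sum_eq_zero fun π _ => ?_
  rw [if_neg, mul_zero]
  rintro rfl
  exact h π.injective

private theorem lev_exp {n : ℕ} (M : Matrix (Fin n) (Fin n) F) :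
    ∑ τ : Fin n → Fin n, (∏ j, M j (τ j)) * lev_E F τ = M.det := by
  unfold lev_E
  have h1 : ∀ τ : Fin n → Fin n, (∏ j, M j (τ j)) * ∑ π : Equiv.Perm (Fin n),
      ((Equiv.Perm.sign π : ℤ) : F) * (if τ = ⇑π then 1 else 0) = ∑ π : Equiv.Perm (Fin n),
      (if τ = ⇑π then ((Equiv.Perm.sign π : ℤ) : F) * ∏ j, M j (τ j) else 0) := by
    intro τ
    rw [Finset.mul_sum]
    refine Finset.sum_congr rfl fun π _ => ?_
    split_ifs
    · ring
    · ring
  rw [Finset.sum_congr rfl fun τ _ => h1 τ, Finset.sum_comm, ← Matrix.det_transpose,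
    Matrix.det_apply']
  refine Finset.sum_congr rfl fun π _ => ?_
  rw [Finset.sum_ite_eq' Finset.univ (⇑π), if_pos (Finset.mem_univ _)]
  rfl

private theorem lev_mul {n : ℕ} (h : Matrix (Fin n) (Fin n) F) (σ : Fin n → Fin n) :
    ∑ τ : Fin n → Fin n, (∏ j, h (σ j) (τ j)) * lev_E F τ = lev_E F σ * h.det := by
  have h1 := lev_exp (F := F) (h.submatrix σ id)
  have h2 : ∑ τ : Fin n → Fin n, (∏ j, h (σ j) (τ j)) * lev_E F τ
      = (h.submatrix σ id).det := h1
  rw [h2]
  by_cases hi : Function.Injective σ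
  · have hb : Function.Bijective σ := Finite.injective_iff_bijective.1 hi
    have h3 : σ = ⇑(Equiv.ofBijective σ hb) := rfl
    rw [h3, lev_E_perm, Matrix.det_permute]
  · rw [lev_E_not hi, zero_mul]
    have h4 : ∃ i j, σ i = σ j ∧ i ≠ j := by
      unfold Function.Injective at hi
      push Not at hi
      exact hi
    obtain ⟨i, j, h5, h6⟩ := h4
    refine Matrix.det_zero_of_row_eq h6 ?_
    ext k
    rw [Matrix.submatrix_apply, Matrix.submatrix_apply, h5]

private theorem lev_card {n : ℕ} (j : Fin (n + 1)) :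
    ∑ π : Equiv.Perm (Fin (n + 1)), (if π 0 = j then (1 : F) else 0) = (n.factorial : F) := by
  rw [← Equiv.sum_comp Equiv.Perm.decomposeFin.symm, Fintype.sum_prod_type]
  have h1 : ∀ (p : Fin (n + 1)) (e : Equiv.Perm (Fin n)),
      (if (Equiv.Perm.decomposeFin.symm (p, e)) 0 = j then (1 : F) else 0)
        = if p = j then 1 else 0 := by
    intro p e
    rw [Equiv.Perm.decomposeFin_symm_apply_zero]
  rw [Finset.sum_congr rfl fun p _ => Finset.sum_congr rfl fun e _ => h1 p e]
  rw [Finset.sum_congr rfl fun p _ => Finset.sum_const (s := Finset.univ) (if p = j then (1 : F) else 0)]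
  rw [← Finset.smul_sum, Finset.sum_ite_eq' Finset.univ j, if_pos (Finset.mem_univ _),
    Finset.card_univ, Fintype.card_perm, Fintype.card_fin, nsmul_eq_mul, mul_one]

private theorem lev_orth {n : ℕ} (i j : Fin (n + 1)) :
    ∑ a : Fin n → Fin (n + 1), lev_E F (Fin.cons i a : Fin (n + 1) → Fin (n + 1)) *
      lev_E F (Fin.cons j a : Fin (n + 1) → Fin (n + 1)) = if i = j then (n.factorial : F) else 0 := by
  have h1 : ∀ a : Fin n → Fin (n + 1), lev_E F (Fin.cons i a : Fin (n + 1) → Fin (n + 1)) *
      lev_E F (Fin.cons j a : Fin (n + 1) → Fin (n + 1)) = ∑ π : Equiv.Perm (Fin (n + 1)),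
      (if a = (fun t => π t.succ) then (if π 0 = j then (if i = j then (1 : F) else 0) else 0)
        else 0) := by
    intro a
    conv_lhs => rw [show lev_E F (Fin.cons j a : Fin (n + 1) → Fin (n + 1)) =
      ∑ π : Equiv.Perm (Fin (n + 1)), ((Equiv.Perm.sign π : ℤ) : F) *
        (if (Fin.cons j a : Fin (n + 1) → Fin (n + 1)) = ⇑π then 1 else 0) from rfl]
    rw [Finset.mul_sum]
    refine Finset.sum_congr rfl fun π _ => ?_
    by_cases h2 : (Fin.cons j a : Fin (n + 1) → Fin (n + 1)) = ⇑π
    · have h3 : π 0 = j := by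
        rw [← h2, Fin.cons_zero]
      have h4 : a = fun t => π t.succ := by
        funext t
        rw [← h2, Fin.cons_succ]
      rw [if_pos h2, if_pos h4, if_pos h3, mul_one]
      by_cases h5 : i = j
      · rw [if_pos h5, h5, h2, lev_E_perm, ← Int.cast_mul, ← Units.val_mul,
          Int.units_mul_self, Units.val_one, Int.cast_one]
      · rw [if_neg h5, lev_E_not, zero_mul]
        intro hi
        obtain ⟨k, hk⟩ := π.surjective i
        have hk0 : k ≠ 0 := by
          rintro rfl
          exact h5 (hk.symm.trans h3)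
        obtain ⟨t, rfl⟩ := Fin.exists_succ_eq.2 hk0
        have h6 : (Fin.cons i a : Fin (n + 1) → Fin (n + 1)) t.succ
            = (Fin.cons i a : Fin (n + 1) → Fin (n + 1)) 0 := by
          rw [Fin.cons_succ, Fin.cons_zero, h4]
          exact hk
        exact absurd (hi h6) (Fin.succ_ne_zero t)
    · rw [if_neg h2, mul_zero, mul_zero]
      by_cases h4 : a = fun t => π t.succ
      · rw [if_pos h4, if_neg]
        intro h3
        apply h2
        funext k
        refine Fin.cases ?_ (fun t => ?_) k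
        · rw [Fin.cons_zero, h3]
        · rw [Fin.cons_succ, h4]
      · rw [if_neg h4]
  rw [Finset.sum_congr rfl fun a _ => h1 a, Finset.sum_comm]
  have h2 : ∀ π : Equiv.Perm (Fin (n + 1)), ∑ a : Fin n → Fin (n + 1),
      (if a = (fun t => π t.succ) then (if π 0 = j then (if i = j then (1 : F) else 0) else 0)
        else 0) = (if i = j then (1 : F) else 0) * (if π 0 = j then 1 else 0) := by
    intro π
    rw [Finset.sum_ite_eq' Finset.univ, if_pos (Finset.mem_univ _)]
    split_ifs <;> ring
  rw [Finset.sum_congr rfl fun π _ => h2 π, ← Finset.mul_sum, lev_card]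
  split_ifs <;> ring

private theorem lev_prod_sum {S κ : Type} [Fintype S] [DecidableEq S] [Fintype κ]
    (f : S → κ → F) : ∑ x : S → κ, ∏ s, f s (x s) = ∏ s, ∑ k, f s k := by
  classical
  rw [Finset.prod_univ_sum, Fintype.piFinset_univ]

/-- the alternating form -/
private noncomputable def lev_A (F : Type w) [Field F] (n : ℕ) (S : Type) [Fintype S] :
    Matrix (S × Fin n → Fin (n + 1)) (S → Fin (n + 1)) F :=
  Matrix.of fun a b => ∏ s, lev_E F (Fin.cons (b s) (fun t => a (s, t)) : Fin (n + 1) → Fin (n + 1))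

private theorem lev_AA (n : ℕ) (S : Type) [Fintype S] [DecidableEq S] :
    (lev_A F n S).transpose * lev_A F n S = ((n.factorial : F) ^ Fintype.card S) • 1 := by
  ext b b'
  rw [Matrix.mul_apply, Matrix.smul_apply, Matrix.one_apply]
  have h1 : ∀ a : S × Fin n → Fin (n + 1), (lev_A F n S).transpose b a * lev_A F n S a b' =
      ∏ s, (lev_E F (Fin.cons (b s) (fun t => a (s, t)) : Fin (n + 1) → Fin (n + 1)) *
        lev_E F (Fin.cons (b' s) (fun t => a (s, t)) : Fin (n + 1) → Fin (n + 1))) := by
    intro a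
    rw [Finset.prod_mul_distrib]
    rfl
  rw [Finset.sum_congr rfl fun a _ => h1 a, ← Equiv.sum_comp (Equiv.curry S (Fin n) (Fin (n + 1))).symm]
  have h2 := lev_prod_sum (F := F) (fun (s : S) (x : Fin n → Fin (n + 1)) =>
    lev_E F (Fin.cons (b s) x : Fin (n + 1) → Fin (n + 1)) *
      lev_E F (Fin.cons (b' s) x : Fin (n + 1) → Fin (n + 1)))
  refine Eq.trans h2 ?_
  rw [Finset.prod_congr rfl fun s _ => lev_orth (F := F) (b s) (b' s)]
  by_cases h : b = b'
  · subst h
    rw [if_pos rfl, Finset.prod_congr rfl fun s _ => if_pos rfl, Finset.prod_const,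
      Finset.card_univ, smul_eq_mul, mul_one]
  · rw [if_neg h, smul_zero]
    obtain ⟨s, hs⟩ := Function.ne_iff.1 h
    exact Finset.prod_eq_zero (Finset.mem_univ s) (if_neg hs)

private theorem lev_inv (n : ℕ) {S : Type} [Fintype S] [DecidableEq S] (c : S → Fin l)
    (h : Tup F l (n + 1)) (hs : Sl h) :
    kr (fun s : S × Fin n => c s.1) h * lev_A F n S * (kr c h).transpose = lev_A F n S := by
  ext a b
  rw [Matrix.mul_assoc, Matrix.mul_apply]
  have h1 : ∀ a' : S × Fin n → Fin (n + 1), kr (fun s : S × Fin n => c s.1) h a a' *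
      (lev_A F n S * (kr c h).transpose) a' b =
      ∏ s, ((∏ t, h (c s) (a (s, t)) (a' (s, t))) * ∑ k, h (c s) (b s) k *
        lev_E F (Fin.cons k (fun t => a' (s, t)) : Fin (n + 1) → Fin (n + 1))) := by
    intro a'
    rw [Finset.prod_mul_distrib, ← lev_prod_sum (F := F) (fun (s : S) (k : Fin (n + 1)) =>
      h (c s) (b s) k * lev_E F (Fin.cons k (fun t => a' (s, t)) : Fin (n + 1) → Fin (n + 1))),
      Matrix.mul_apply]
    congr 1
    · change ∏ x : S × Fin n, h (c x.1) (a x) (a' x) = _
      rw [Fintype.prod_prod_type]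
    · refine Finset.sum_congr rfl fun b' _ => ?_
      rw [Finset.prod_mul_distrib, mul_comm]
      rfl
  rw [Finset.sum_congr rfl fun a' _ => h1 a', ← Equiv.sum_comp (Equiv.curry S (Fin n) (Fin (n + 1))).symm]
  have h2 := lev_prod_sum (F := F) (fun (s : S) (x : Fin n → Fin (n + 1)) =>
    (∏ t, h (c s) (a (s, t)) (x t)) * ∑ k, h (c s) (b s) k *
      lev_E F (Fin.cons k x : Fin (n + 1) → Fin (n + 1)))
  refine Eq.trans h2 ?_
  change _ = ∏ s, lev_E F (Fin.cons (b s) (fun t => a (s, t)) : Fin (n + 1) → Fin (n + 1))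
  refine Finset.prod_congr rfl fun s _ => ?_
  have h3 := lev_mul (F := F) (h (c s)) (Fin.cons (b s) (fun t => a (s, t)))
  rw [hs (c s), mul_one] at h3
  rw [← h3, ← Equiv.sum_comp (Fin.consEquiv (fun _ : Fin (n + 1) => Fin (n + 1))),
    Fintype.sum_prod_type, Finset.sum_comm]
  refine Finset.sum_congr rfl fun x _ => ?_
  rw [Finset.mul_sum]
  refine Finset.sum_congr rfl fun k _ => ?_
  have h4 : (Fin.consEquiv (fun _ : Fin (n + 1) => Fin (n + 1))) (k, x)
      = (Fin.cons k x : Fin (n + 1) → Fin (n + 1)) := rfl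
  rw [h4, Fin.prod_univ_succ]
  simp only [Fin.cons_zero, Fin.cons_succ]
  ring

private theorem lev_kr_tr {S : Type} [Fintype S] (c : S → Fin l) (h : Tup F l r) :
    kr c (fun i => (h i).transpose) = (kr c h).transpose := by
  ext a b
  rfl

theorem lev [CharZero F] {S : Type} [Fintype S] [DecidableEq S] (c : S → Fin l) :
    ∃ (A : Matrix (S × Fin (r - 1) → Fin r) (S → Fin r) F)
      (A' : Matrix (S → Fin r) (S × Fin (r - 1) → Fin r) F), A' * A = 1 ∧
      ∀ h : Tup F l r, Sl h →
        kr (fun s : S × Fin (r - 1) => c s.1) h * A * (kr c h).transpose = A ∧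
        (kr c h).transpose * A' * kr (fun s : S × Fin (r - 1) => c s.1) h = A' := by
  cases r with
  | zero =>
    refine ⟨Matrix.of fun _ _ => 1, Matrix.of fun _ _ => 1, ?_, ?_⟩
    · ext b b'
      have hb : b = b' := by
        funext s
        exact (b s).elim0
      subst hb
      simp [Matrix.mul_apply]
    · intro h _
      constructor
      · ext a b
        have : IsEmpty S := ⟨fun s => (b s).elim0⟩
        simp [Matrix.mul_apply, kr]
      · ext a b
        have : IsEmpty S := ⟨fun s => (a s).elim0⟩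
        simp [Matrix.mul_apply, kr]
  | succ n =>
    have hf : ((n.factorial : F) ^ Fintype.card S) ≠ 0 :=
      pow_ne_zero _ (Nat.cast_ne_zero.2 (Nat.factorial_ne_zero n))
    refine ⟨lev_A F n S, ((n.factorial : F) ^ Fintype.card S)⁻¹ • (lev_A F n S).transpose, ?_, ?_⟩
    · rw [Matrix.smul_mul, lev_AA, smul_smul, inv_mul_cancel₀ hf, one_smul]
    · intro h hs
      refine ⟨lev_inv n c h hs, ?_⟩
      have h1 : Sl (fun i => (h i).transpose : Tup F l (n + 1)) := fun i => by
        rw [Matrix.det_transpose]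
        exact hs i
      have h2 := lev_inv (F := F) n c _ h1
      rw [lev_kr_tr, lev_kr_tr, Matrix.transpose_transpose] at h2
      have h3 := congrArg Matrix.transpose h2
      rw [Matrix.transpose_mul, Matrix.transpose_mul, Matrix.transpose_transpose,
        ← Matrix.mul_assoc] at h3
      rw [Matrix.mul_smul, Matrix.smul_mul]
      exact congrArg _ h3

end Pool.Agent.MUT
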