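import Pool.Agent.MUT.EmbA
import Pool.Agent.MUT.Lev

/-!
# MUT: semisimplicity, duals

Port of `MUM.SsD`. The evaluation of the dual pair `W`, `Wᘁ` is realised by a perfect pairing `⟨y, x⟩` of `H(Wᘁ)` and `H(W)`
(`mud_pr`, `mud_nd1`, `mud_nd2`), invariant under the group (`mud_tau`). If `H(W)` is a direct factor of the word `V_c`, by
`E` and `P`, then `Φ y a = ⟨y, P (Pi.single a 1)⟩` embeds `H(Wᘁ)` into the dual of `V_c`, which is a direct factor of a word by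
the matrices `A`, `A'` of `lev`.
-/

set_option linter.unusedSectionVars false
set_option linter.unusedVariables false

namespace Pool.Agent.MUT

open CategoryTheory MonoidalCategory Limits TensorProduct Pool.Agent.KTT

universe v u w w'

private theorem mud_hz1 {C : Type u} [Category.{v} C] [MonoidalCategory C] {D : Type*} [Category* D]
    [MonoidalCategory D] (H : C ⥤ D) [H.Monoidal] (X Y : C) [ExactPairing X Y] :
    H.obj Y ◁ (Functor.LaxMonoidal.ε H ≫ H.map (η_ X Y) ≫ Functor.OplaxMonoidal.δ H X Y) ≫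
      (α_ (H.obj Y) (H.obj X) (H.obj Y)).inv ≫
      (Functor.LaxMonoidal.μ H Y X ≫ H.map (ε_ X Y) ≫ Functor.OplaxMonoidal.η H) ▷ H.obj Y =
      (ρ_ (H.obj Y)).hom ≫ (λ_ (H.obj Y)).inv := by
  have h := congrArg H.map (ExactPairing.coevaluation_evaluation X Y)
  rw [H.map_comp, H.map_comp, H.map_comp, Functor.Monoidal.map_whiskerLeft, Functor.Monoidal.map_whiskerRight,
    Functor.Monoidal.map_associator_inv, Functor.Monoidal.map_rightUnitor,
    Functor.Monoidal.map_leftUnitor_inv] at h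
  simp only [Category.assoc, Functor.Monoidal.μ_δ_assoc] at h
  have h2 := congrArg (fun f => (H.obj Y ◁ Functor.LaxMonoidal.ε H ≫ Functor.LaxMonoidal.μ H Y (𝟙_ C)) ≫ f ≫
    (Functor.OplaxMonoidal.δ H (𝟙_ C) Y ≫ Functor.OplaxMonoidal.η H ▷ H.obj Y)) h
  simp only [Category.assoc, Functor.Monoidal.μ_δ_assoc, Functor.Monoidal.whiskerLeft_ε_η_assoc,
    Functor.Monoidal.whiskerRight_ε_η, Category.comp_id] at h2
  simp only [MonoidalCategory.whiskerLeft_comp, comp_whiskerRight, Category.assoc]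
  exact h2

private theorem mud_zero1 {F : Type w} [Field F] (V W : ModuleCat.{w} F)
    (c : 𝟙_ (ModuleCat.{w} F) ⟶ V ⊗ W) (e : W ⊗ V ⟶ 𝟙_ (ModuleCat.{w} F))
    (h : W ◁ c ≫ (α_ W V W).inv ≫ e ▷ W = (ρ_ W).hom ≫ (λ_ W).inv)
    (y : W) (hy : ∀ x : V, e.hom (y ⊗ₜ[F] x) = 0) : y = 0 := by
  have key : ∀ t : (V ⊗ W : ModuleCat.{w} F),
      (e ▷ W).hom ((α_ W V W).inv.hom (y ⊗ₜ[F] t)) = 0 := by
    intro t
    induction t using TensorProduct.induction_on with
    | zero => rw [TensorProduct.tmul_zero, map_zero, map_zero]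
    | tmul a b =>
      have h1 : (e ▷ W).hom ((α_ W V W).inv.hom (y ⊗ₜ[F] (a ⊗ₜ[F] b))) =
          (e.hom (y ⊗ₜ[F] a)) ⊗ₜ[F] b := rfl
      rw [h1, hy a, TensorProduct.zero_tmul]
    | add s t hs ht => rw [TensorProduct.tmul_add, map_add, map_add, hs, ht, add_zero]
  have h4 := congrArg (fun f => (λ_ W).hom.hom (f.hom (y ⊗ₜ[F] (1 : F)))) h
  have h5 : (W ◁ c ≫ (α_ W V W).inv ≫ e ▷ W).hom (y ⊗ₜ[F] (1 : F)) =
      (e ▷ W).hom ((α_ W V W).inv.hom (y ⊗ₜ[F] (c.hom (1 : F)))) := rfl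
  have h6 : (λ_ W).hom.hom (((ρ_ W).hom ≫ (λ_ W).inv).hom (y ⊗ₜ[F] (1 : F))) = y := by
    have h7 : (λ_ W).hom.hom (((ρ_ W).hom ≫ (λ_ W).inv).hom (y ⊗ₜ[F] (1 : F))) =
      (((ρ_ W).hom ≫ (λ_ W).inv) ≫ (λ_ W).hom).hom (y ⊗ₜ[F] (1 : F)) := rfl
    rw [h7, Category.assoc, Iso.inv_hom_id, Category.comp_id]
    exact one_smul F y
  rw [← h6, ← h4]
  change (λ_ W).hom.hom ((W ◁ c ≫ (α_ W V W).inv ≫ e ▷ W).hom (y ⊗ₜ[F] (1 : F))) = 0
  rw [h5, key, map_zero]

private theorem mud_hz2 {C : Type u} [Category.{v} C] [MonoidalCategory C] {D : Type*} [Category* D]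
    [MonoidalCategory D] (H : C ⥤ D) [H.Monoidal] (X Y : C) [ExactPairing X Y] :
    (Functor.LaxMonoidal.ε H ≫ H.map (η_ X Y) ≫ Functor.OplaxMonoidal.δ H X Y) ▷ H.obj X ≫
      (α_ (H.obj X) (H.obj Y) (H.obj X)).hom ≫
      H.obj X ◁ (Functor.LaxMonoidal.μ H Y X ≫ H.map (ε_ X Y) ≫ Functor.OplaxMonoidal.η H) =
      (λ_ (H.obj X)).hom ≫ (ρ_ (H.obj X)).inv := by
  have h := congrArg H.map (ExactPairing.evaluation_coevaluation X Y)
  rw [H.map_comp, H.map_comp, H.map_comp, Functor.Monoidal.map_whiskerLeft, Functor.Monoidal.map_whiskerRight,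
    Functor.Monoidal.map_associator, Functor.Monoidal.map_leftUnitor,
    Functor.Monoidal.map_rightUnitor_inv] at h
  simp only [Category.assoc, Functor.Monoidal.μ_δ_assoc] at h
  have h2 := congrArg (fun f => (Functor.LaxMonoidal.ε H ▷ H.obj X ≫ Functor.LaxMonoidal.μ H (𝟙_ C) X) ≫ f ≫
    (Functor.OplaxMonoidal.δ H X (𝟙_ C) ≫ H.obj X ◁ Functor.OplaxMonoidal.η H)) h
  simp only [Category.assoc, Functor.Monoidal.μ_δ_assoc, Functor.Monoidal.whiskerRight_ε_η_assoc,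
    Functor.Monoidal.whiskerLeft_ε_η, Category.comp_id] at h2
  simp only [MonoidalCategory.whiskerLeft_comp, comp_whiskerRight, Category.assoc]
  exact h2

private theorem mud_zero2 {F : Type w} [Field F] (V W : ModuleCat.{w} F)
    (c : 𝟙_ (ModuleCat.{w} F) ⟶ V ⊗ W) (e : W ⊗ V ⟶ 𝟙_ (ModuleCat.{w} F))
    (h : c ▷ V ≫ (α_ V W V).hom ≫ V ◁ e = (λ_ V).hom ≫ (ρ_ V).inv)
    (x : V) (hx : ∀ y : W, e.hom (y ⊗ₜ[F] x) = 0) : x = 0 := by
  have key : ∀ t : (V ⊗ W : ModuleCat.{w} F),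
      (V ◁ e).hom ((α_ V W V).hom.hom (t ⊗ₜ[F] x)) = 0 := by
    intro t
    induction t using TensorProduct.induction_on with
    | zero => rw [TensorProduct.zero_tmul, map_zero, map_zero]
    | tmul a b =>
      have h1 : (V ◁ e).hom ((α_ V W V).hom.hom ((a ⊗ₜ[F] b) ⊗ₜ[F] x)) =
          a ⊗ₜ[F] (e.hom (b ⊗ₜ[F] x)) := rfl
      rw [h1, hx b, TensorProduct.tmul_zero]
    | add s t hs ht => rw [TensorProduct.add_tmul, map_add, map_add, hs, ht, add_zero]
  have h4 := congrArg (fun f => (ρ_ V).hom.hom (f.hom ((1 : F) ⊗ₜ[F] x))) h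
  have h5 : (c ▷ V ≫ (α_ V W V).hom ≫ V ◁ e).hom ((1 : F) ⊗ₜ[F] x) =
      (V ◁ e).hom ((α_ V W V).hom.hom (c.hom (1 : F) ⊗ₜ[F] x)) := rfl
  have h6 : (ρ_ V).hom.hom (((λ_ V).hom ≫ (ρ_ V).inv).hom ((1 : F) ⊗ₜ[F] x)) = x := by
    have h7 : (ρ_ V).hom.hom (((λ_ V).hom ≫ (ρ_ V).inv).hom ((1 : F) ⊗ₜ[F] x)) =
      (((λ_ V).hom ≫ (ρ_ V).inv) ≫ (ρ_ V).hom).hom ((1 : F) ⊗ₜ[F] x) := rfl
    rw [h7, Category.assoc, Iso.inv_hom_id, Category.comp_id]
    exact one_smul F x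
  rw [← h6, ← h4]
  change (ρ_ V).hom.hom ((c ▷ V ≫ (α_ V W V).hom ≫ V ◁ e).hom ((1 : F) ⊗ₜ[F] x)) = 0
  rw [h5, key, map_zero]

section Pairing

variable {C : Type u} [Category.{v} C] [MonoidalCategory C]
  {F : Type w} [Field F] {H : C ⥤ ModuleCat.{w} F} [H.Monoidal]

/-- The pairing `H(Xᘁ) × H(X) → F`. -/
private noncomputable def mud_pr (H : C ⥤ ModuleCat.{w} F) [H.Monoidal] (X : C) [HasRightDual X] :
    H.obj Xᘁ →ₗ[F] H.obj X →ₗ[F] F :=
  LinearMap.mk₂ F (fun y x => ((Functor.LaxMonoidal.μ H Xᘁ X ≫ H.map (ε_ X Xᘁ) ≫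
      Functor.OplaxMonoidal.η H).hom (y ⊗ₜ[F] x) : F))
    (fun y y' x => by rw [TensorProduct.add_tmul, map_add])
    (fun c y x => by rw [← TensorProduct.smul_tmul', map_smul])
    (fun y x x' => by rw [TensorProduct.tmul_add, map_add])
    (fun c y x => by rw [TensorProduct.tmul_smul, map_smul])

private theorem mud_pr_apply (X : C) [HasRightDual X] (y : H.obj Xᘁ) (x : H.obj X) :
    mud_pr H X y x = ((Functor.LaxMonoidal.μ H Xᘁ X ≫ H.map (ε_ X Xᘁ) ≫
      Functor.OplaxMonoidal.η H).hom (y ⊗ₜ[F] x) : F) := rfl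

private theorem mud_nd1 (X : C) [HasRightDual X] (y : H.obj Xᘁ) (h : ∀ x, mud_pr H X y x = 0) :
    y = 0 :=
  mud_zero1 (H.obj X) (H.obj Xᘁ) _ _ (mud_hz1 H X Xᘁ) y h

private theorem mud_nd2 (X : C) [HasRightDual X] (x : H.obj X) (h : ∀ y, mud_pr H X y x = 0) :
    x = 0 :=
  mud_zero2 (H.obj X) (H.obj Xᘁ) _ _ (mud_hz2 H X Xᘁ) x h

private theorem mud_unit (τ : H ⟶ H) [NatTrans.IsMonoidal τ] : τ.app (𝟙_ C) = 𝟙 _ := by
  have h := NatTrans.IsMonoidal.unit (τ := τ)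
  have h1 := congrArg (fun f => Functor.OplaxMonoidal.η H ≫ f) h
  simpa only [Functor.Monoidal.η_ε_assoc, Functor.Monoidal.η_ε] using h1

private theorem mud_tau (τ : H ⟶ H) [NatTrans.IsMonoidal τ] (X : C) [HasRightDual X]
    (y : H.obj Xᘁ) (x : H.obj X) :
    mud_pr H X ((τ.app Xᘁ).hom y) ((τ.app X).hom x) = mud_pr H X y x := by
  have h2 := congrArg (fun f => f.hom (y ⊗ₜ[F] x)) (NatTrans.IsMonoidal.tensor (τ := τ) Xᘁ X)
  have h3 := congrArg (fun f => f.hom ((Functor.LaxMonoidal.μ H Xᘁ X).hom (y ⊗ₜ[F] x)))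
    (τ.naturality (ε_ X Xᘁ))
  rw [mud_unit τ, Category.comp_id] at h3
  have h4 : (τ.app (Xᘁ ⊗ X)).hom ((Functor.LaxMonoidal.μ H Xᘁ X).hom (y ⊗ₜ[F] x)) =
      (Functor.LaxMonoidal.μ H Xᘁ X).hom ((τ.app Xᘁ).hom y ⊗ₜ[F] (τ.app X).hom x) := h2
  have h5 : (H.map (ε_ X Xᘁ)).hom ((Functor.LaxMonoidal.μ H Xᘁ X).hom (y ⊗ₜ[F] x)) =
      (H.map (ε_ X Xᘁ)).hom ((τ.app (Xᘁ ⊗ X)).hom
        ((Functor.LaxMonoidal.μ H Xᘁ X).hom (y ⊗ₜ[F] x))) := h3
  have h6 : mud_pr H X ((τ.app Xᘁ).hom y) ((τ.app X).hom x) =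
      (Functor.OplaxMonoidal.η H).hom ((H.map (ε_ X Xᘁ)).hom
        ((Functor.LaxMonoidal.μ H Xᘁ X).hom ((τ.app Xᘁ).hom y ⊗ₜ[F] (τ.app X).hom x))) := rfl
  have h7 : mud_pr H X y x =
      (Functor.OplaxMonoidal.η H).hom ((H.map (ε_ X Xᘁ)).hom
        ((Functor.LaxMonoidal.μ H Xᘁ X).hom (y ⊗ₜ[F] x))) := rfl
  rw [h6, h7, h5, h4]

private theorem mud_rank (X : C) [HasRightDual X] :
    FiniteDimensional F (H.obj Xᘁ) ∧
      Module.finrank F (H.obj Xᘁ) = Module.finrank F (H.obj X) := by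
  have := finite_of_rigid H X
  have hi1 : Function.Injective (mud_pr H X) := by
    rw [← LinearMap.ker_eq_bot, LinearMap.ker_eq_bot']
    intro y hy
    exact mud_nd1 X y fun x => by rw [hy, LinearMap.zero_apply]
  have hf : FiniteDimensional F (H.obj Xᘁ) := FiniteDimensional.of_injective (mud_pr H X) hi1
  have hi2 : Function.Injective (mud_pr H X).flip := by
    rw [← LinearMap.ker_eq_bot, LinearMap.ker_eq_bot']
    intro x hx
    refine mud_nd2 X x fun y => ?_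
    have h1 := LinearMap.congr_fun hx y
    rwa [LinearMap.flip_apply, LinearMap.zero_apply] at h1
  refine ⟨hf, le_antisymm ?_ ?_⟩
  · have h1 := LinearMap.finrank_le_finrank_of_injective hi1
    rwa [Subspace.dual_finrank_eq] at h1
  · have h1 := LinearMap.finrank_le_finrank_of_injective hi2
    rwa [Subspace.dual_finrank_eq] at h1

end Pairing

variable {C : Type u} [Category.{v} C] [MonoidalCategory C]
  {F : Type w} [Field F] [CharZero F] (H : C ⥤ ModuleCat.{w} F) [H.Monoidal]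
  {G : Type w'} [Group G] (ρ : G →* Aut H) {l r : ℕ} {U Q : C}
  (j : Fin l → Fin r → H.obj U) (q : H.obj Q)

theorem emb_dual (ht : ∀ g, NatTrans.IsMonoidal (ρ g).hom) {W : C} [HasRightDual W]
    (h : Emb H ρ j q W) : Emb H ρ j q Wᘁ := by
  obtain ⟨S, iS, iD, c, E, P, hPE, hact⟩ := h
  obtain ⟨hfin, hrk⟩ := mud_rank (H := H) W
  have hfW := finite_of_rigid H W
  obtain ⟨A, A', hA, hAA⟩ := lev (F := F) (r := r) c
  -- the coordinates dual to `P`
  let Φ : H.obj Wᘁ →ₗ[F] ((S → Fin r) → F) :=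
    { toFun := fun y a => mud_pr H W y (P (Pi.single a 1))
      map_add' := fun y y' => by
        funext a
        rw [map_add, LinearMap.add_apply]; rfl
      map_smul' := fun c y => by
        funext a
        rw [map_smul, LinearMap.smul_apply]; rfl }
  have hΦP : ∀ (y : H.obj Wᘁ) (x : (S → Fin r) → F), mud_pr H W y (P x) = Φ y ⬝ᵥ x := by
    intro y x
    have h1 : x = ∑ a, x a • (Pi.single a (1 : F) : (S → Fin r) → F) := by
      funext b
      rw [Finset.sum_apply, Finset.sum_eq_single b]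
      · rw [Pi.smul_apply, Pi.single_eq_same, smul_eq_mul, mul_one]
      · intro a _ hab
        rw [Pi.smul_apply, Pi.single_eq_of_ne (Ne.symm hab), smul_zero]
      · intro hb
        exact absurd (Finset.mem_univ b) hb
    conv_lhs => rw [h1]
    rw [map_sum, map_sum, dotProduct]
    refine Finset.sum_congr rfl fun a _ => ?_
    rw [map_smul, map_smul, smul_eq_mul, mul_comm]
    rfl
  have hΦ : ∀ (y : H.obj Wᘁ) (v : H.obj W), mud_pr H W y v = Φ y ⬝ᵥ E v := by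
    intro y v
    rw [← hΦP, hPE]
  -- the perfect pairing
  have hinj : Function.Injective (mud_pr H W) := by
    rw [← LinearMap.ker_eq_bot, LinearMap.ker_eq_bot']
    intro y hy
    exact mud_nd1 W y fun x => by rw [hy, LinearMap.zero_apply]
  have hdim : Module.finrank F (H.obj Wᘁ) = Module.finrank F (Module.Dual F (H.obj W)) := by
    rw [hrk, Subspace.dual_finrank_eq]
  let D : H.obj Wᘁ ≃ₗ[F] Module.Dual F (H.obj W) :=
    LinearEquiv.ofInjectiveOfFinrankEq (mud_pr H W) hinj hdim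
  have hD : ∀ y v, D y v = mud_pr H W y v := fun y v => rfl
  let Ψ : ((S × Fin (r - 1) → Fin r) → F) →ₗ[F] Module.Dual F (H.obj W) :=
    LinearMap.mk₂ F (fun z v => A'.mulVec z ⬝ᵥ E v)
      (fun z z' v => by rw [Matrix.mulVec_add, add_dotProduct])
      (fun a z v => by rw [Matrix.mulVec_smul, smul_dotProduct])
      (fun z v v' => by rw [map_add, dotProduct_add])
      (fun a z v => by rw [map_smul, dotProduct_smul])
  have hΨ : ∀ z v, Ψ z v = A'.mulVec z ⬝ᵥ E v := fun z v => rfl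
  let P' : ((S × Fin (r - 1) → Fin r) → F) →ₗ[F] H.obj Wᘁ := D.symm.toLinearMap ∘ₗ Ψ
  have hP' : ∀ z v, mud_pr H W (P' z) v = A'.mulVec z ⬝ᵥ E v := by
    intro z v
    rw [← hD, ← hΨ]
    change D (D.symm (Ψ z)) v = Ψ z v
    rw [LinearEquiv.apply_symm_apply]
  have hext : ∀ y y' : H.obj Wᘁ, (∀ v, mud_pr H W y v = mud_pr H W y' v) → y = y' := by
    intro y y' hyy
    exact hinj (LinearMap.ext hyy)
  refine ⟨S × Fin (r - 1), instFintypeProd S (Fin (r - 1)), instDecidableEqProd, fun s => c s.1,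
    A.mulVecLin ∘ₗ Φ, P', ?_, ?_⟩
  · intro y
    refine hext _ _ fun v => ?_
    rw [hP', hΦ, LinearMap.comp_apply, Matrix.mulVecLin_apply, Matrix.mulVec_mulVec, hA,
      Matrix.one_mulVec]
  · intro g h hs ha
    obtain ⟨b, hb, hbE, hbP⟩ := hact g h hs ha
    obtain ⟨hA1, hA2⟩ := hAA h hs
    have hmon := ht g
    refine ⟨b⁻¹, inv_ne_zero hb, ?_, ?_⟩
    · intro y
      have hrel : Φ y = b • (kr c h).transpose.mulVec (Φ (((ρ g).hom.app Wᘁ).hom y)) := by
        funext a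
        have h3 := mud_tau (ρ g).hom W y (P (Pi.single a 1))
        rw [hbP, map_smul, hΦP, hΦP, dotProduct_single, mul_one] at h3
        rw [← h3, Pi.smul_apply, Matrix.dotProduct_mulVec, dotProduct_single, mul_one,
          Matrix.mulVec_transpose]
      have key : ∀ x, (kr (fun s : S × Fin (r - 1) => c s.1) h).mulVec
          (A.mulVec ((kr c h).transpose.mulVec x)) = A.mulVec x := by
        intro x
        rw [Matrix.mulVec_mulVec, Matrix.mulVec_mulVec, hA1]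
      rw [LinearMap.comp_apply, LinearMap.comp_apply, Matrix.mulVecLin_apply,
        Matrix.mulVecLin_apply, hrel, Matrix.mulVec_smul, Matrix.mulVec_smul, smul_smul,
        inv_mul_cancel₀ hb, one_smul]
      exact (key _).symm
    · intro z
      refine hext _ _ fun v' => ?_
      obtain ⟨v, rfl⟩ : ∃ v, ((ρ g).hom.app W).hom v = v' := by
        refine ⟨((ρ g).inv.app W).hom v', ?_⟩
        have h1 : (ρ g).inv.app W ≫ (ρ g).hom.app W = 𝟙 _ := by
          rw [← NatTrans.comp_app, Iso.inv_hom_id, NatTrans.id_app]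
        exact congrArg (fun f => f.hom v') h1
      have key : (kr c h).transpose.mulVec
          (A'.mulVec ((kr (fun s : S × Fin (r - 1) => c s.1) h).mulVec z)) = A'.mulVec z := by
        rw [Matrix.mulVec_mulVec, Matrix.mulVec_mulVec, hA2]
      have h2 : ∀ x : (S → Fin r) → F, x ⬝ᵥ (kr c h).mulVec (E v) =
          (kr c h).transpose.mulVec x ⬝ᵥ E v := by
        intro x
        rw [Matrix.dotProduct_mulVec, Matrix.mulVec_transpose]
      rw [mud_tau, hP', map_smul, LinearMap.smul_apply, hP', hbE, dotProduct_smul, smul_smul,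
        inv_mul_cancel₀ hb, one_smul, h2]
      exact (congrArg (fun x => x ⬝ᵥ E v) key).symm

end Pool.Agent.MUT
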