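import Pool.Agent.MUT.Flat
import Pool.Agent.MUT.PermU

/-!
# MUT: all permutations of the slots of `(U^(⊗ k) ⊗ Q)^(⊗ n)` are algebraic

`flat`, `perm_ml` for `φ⁻¹ σ φ`, `tl`.
-/

set_option linter.unusedSectionVars false
set_option linter.unusedVariables false

namespace Pool.Agent.MUT

open CategoryTheory MonoidalCategory Limits TensorProduct Pool.Agent.KTT

universe v u w w'

variable {C : Type u} [Category.{v} C] [MonoidalCategory C] [BraidedCategory C]
  {F : Type w} [Field F] (H : C ⥤ ModuleCat.{w} F) [H.Monoidal]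

theorem perm_mm {U Q : C} (hU : Br H U U) (hQ : Br H Q U) (k n : ℕ)
    (σ : Equiv.Perm (Fin n × Fin k)) :
    ∃ A ∈ ah H (pw (pw U k ⊗ Q) n) (pw (pw U k ⊗ Q) n),
      ∀ x q, A (mm H k n x q) = mm H k n (x ∘ σ) q := by
  obtain ⟨N, φ, A, hA, A', hA', hAA⟩ := flat H hQ k n
  obtain ⟨P, hP, hPx⟩ := perm_ml H hU N ((φ.trans σ).trans φ.symm)
  refine ⟨A' ∘ₗ tl H P LinearMap.id ∘ₗ A, ah_comp H (ah_comp H hA (ah_tl H hP (ah_id H _))) hA',
    fun x q => ?_⟩
  have h1 := (hAA (x ∘ σ) q).2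
  rw [LinearMap.comp_apply, LinearMap.comp_apply, (hAA x q).1, tl_tm, hPx, LinearMap.id_apply,
    ← h1]
  congr 3
  funext s
  simp

end Pool.Agent.MUT
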