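import Pool.Agent.MUT.UpD
import Pool.Agent.MUT.PermM
import Pool.Agent.MUT.Schur

/-!
# MUT: equivariant maps between the tensor powers are algebraic

`n = m`: in coordinates (`exists_updown`) the map commutes with `kr c' h` for a dense set of `h`, so it is a combination
of the operators `pm σ`, `σ` preserving the colours, which are algebraic (`perm_mm`). `n ≠ m`: the homothety acts by
`c ^ m` and `c ^ n`, so the map is zero.
-/

set_option linter.unusedSectionVars false
set_option linter.unusedVariables false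

namespace Pool.Agent.MUT

open CategoryTheory MonoidalCategory Limits TensorProduct Pool.Agent.KTT

universe v u w w'

variable {C : Type u} [Category.{v} C] [MonoidalCategory C] [BraidedCategory C]
  {F : Type w} [Field F] [CharZero F] [IsAlgClosed F] {H : C ⥤ ModuleCat.{w} F} [H.Monoidal]
  {G : Type w'} [Group G] {ρ : G →* Aut H} {B : C}

omit [IsAlgClosed F] [CharZero F] [BraidedCategory C] in
private theorem endG_perm {l r k : ℕ} {U Q : C} (j : Fin l → Fin r → H.obj U) (q : H.obj Q)
    (c : Fin k → Fin l) (n : ℕ) (σ : Equiv.Perm (Fin n × Fin k)) (hσ : ∀ s, c (σ s).2 = c s.2)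
    {P : H.obj (pw (pw U k ⊗ Q) n) →ₗ[F] H.obj (pw (pw U k ⊗ Q) n)}
    (hP : ∀ x q, P (mm H k n x q) = mm H k n (x ∘ σ.symm) q)
    (x : (Fin n × Fin k → Fin r) → F) : P (Jn H j q c n x) = Jn H j q c n (pm σ x) := by
  have h1 : Jn H j q c n x = ∑ a, x a • mm H k n (fun s => j (c s.2) (a s)) q := rfl
  have h2 : Jn H j q c n (pm σ x) =
      ∑ a : Fin n × Fin k → Fin r, x (a ∘ σ) • mm H k n (fun s => j (c s.2) (a s)) q := rfl
  rw [h1, h2, map_sum]
  refine Fintype.sum_equiv (Equiv.arrowCongr σ (Equiv.refl (Fin r))) _ _ fun a => ?_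
  have h3 : (Equiv.arrowCongr σ (Equiv.refl (Fin r))) a = a ∘ σ.symm := rfl
  rw [h3, map_smul, hP]
  have h4 : (a ∘ σ.symm) ∘ σ = a := by
    funext s
    simp
  rw [h4]
  congr 2
  funext s
  have h5 : c (σ.symm s).2 = c s.2 := by
    have h6 := hσ (σ.symm s)
    rw [Equiv.apply_symm_apply] at h6
    exact h6.symm
  simp only [Function.comp_apply]
  rw [h5]

private theorem endG_eq (M : TensorType H ρ B) (n : ℕ) (f : H.obj (pw B n) →ₗ[F] H.obj (pw B n))
    (hf : ∀ g v, f (((ρ g).hom.app (pw B n)).hom v) = ((ρ g).hom.app (pw B n)).hom (f v)) :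
    f ∈ ah H (pw B n) (pw B n) := by
  obtain ⟨A, hA, D, hD, E, hE, hDA⟩ := exists_updown M n
  have h1 : E ∘ₗ f ∘ₗ D ∘ₗ Jn H M.j M.q M.c n ∈ Submodule.span F
      {p | ∃ σ : Equiv.Perm (Fin n × Fin M.k), (∀ s, M.c (σ s).2 = M.c s.2) ∧ p = pm σ} := by
    refine comm_dense M.dense (fun s : Fin n × Fin M.k => M.c s.2) _ ?_
    rintro h ⟨-, g, hg⟩
    have := M.tens g
    obtain ⟨b, hb, hJ⟩ := Jn_act H M.j M.q M.c ρ M.j_indep M.q_ne n hg
    have hEρ : ∀ v, E (((ρ g).hom.app (pw B n)).hom v) =
        b • (kr (fun s : Fin n × Fin M.k => M.c s.2) h).mulVec (E v) := by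
      intro v
      apply Jn_inj H M.j M.q M.c M.j_indep M.q_ne n
      rw [← hE, nat_ah H (ρ g).hom hA, hE, hJ, map_smul]
    refine LinearMap.ext fun x => ?_
    rw [LinearMap.comp_apply, LinearMap.comp_apply, LinearMap.comp_apply, LinearMap.comp_apply,
      LinearMap.comp_apply, LinearMap.comp_apply, LinearMap.comp_apply, LinearMap.comp_apply,
      Matrix.mulVecLin_apply, Matrix.mulVecLin_apply]
    have h2 : D (Jn H M.j M.q M.c n
        ((kr (fun s : Fin n × Fin M.k => M.c s.2) h).mulVec x)) =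
        b⁻¹ • ((ρ g).hom.app (pw B n)).hom (D (Jn H M.j M.q M.c n x)) := by
      rw [← nat_ah H (ρ g).hom hD, hJ, map_smul, smul_smul, inv_mul_cancel₀ hb, one_smul]
    rw [h2, map_smul, map_smul, hf, hEρ, smul_smul, inv_mul_cancel₀ hb, one_smul]
  have h6 : ∀ p ∈ Submodule.span F
      {p | ∃ σ : Equiv.Perm (Fin n × Fin M.k), (∀ s, M.c (σ s).2 = M.c s.2) ∧ p = pm (F := F)
        (r := M.r) σ},
      D ∘ₗ Jn H M.j M.q M.c n ∘ₗ p ∘ₗ E ∈ ah H (pw B n) (pw B n) := by
    intro p hp
    induction hp using Submodule.span_induction with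
    | mem p hp =>
      obtain ⟨σ, hσ, rfl⟩ := hp
      obtain ⟨P, hP, hPx⟩ := perm_mm H M.braid_U M.braid_Q M.k n σ.symm
      have h7 : D ∘ₗ Jn H M.j M.q M.c n ∘ₗ pm σ ∘ₗ E = D ∘ₗ P ∘ₗ A := by
        refine LinearMap.ext fun v => ?_
        rw [LinearMap.comp_apply, LinearMap.comp_apply, LinearMap.comp_apply,
          LinearMap.comp_apply, LinearMap.comp_apply, hE,
          endG_perm M.j M.q M.c n σ hσ hPx]
      rw [h7]
      exact ah_comp H (ah_comp H hA hP) hD
    | zero =>
      rw [LinearMap.zero_comp, LinearMap.comp_zero, LinearMap.comp_zero]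
      exact Submodule.zero_mem _
    | add p q _ _ h7 h8 =>
      rw [LinearMap.add_comp, LinearMap.comp_add, LinearMap.comp_add]
      exact Submodule.add_mem _ h7 h8
    | smul a p _ h7 =>
      rw [LinearMap.smul_comp, LinearMap.comp_smul, LinearMap.comp_smul]
      exact Submodule.smul_mem _ a h7
  have h9 := h6 _ h1
  have h10 : D ∘ₗ Jn H M.j M.q M.c n ∘ₗ (E ∘ₗ f ∘ₗ D ∘ₗ Jn H M.j M.q M.c n) ∘ₗ E = f := by
    refine LinearMap.ext fun v => ?_
    simp only [LinearMap.comp_apply]
    rw [← hE v, hDA, ← hE, hDA]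
  rwa [h10] at h9

theorem hom_pw (M : TensorType H ρ B) (n m : ℕ) (f : H.obj (pw B m) →ₗ[F] H.obj (pw B n))
    (hf : ∀ g v, f (((ρ g).hom.app (pw B m)).hom v) = ((ρ g).hom.app (pw B n)).hom (f v)) :
    f ∈ ah H (pw B m) (pw B n) := by
  rcases eq_or_ne n m with h | h
  · subst h
    exact endG_eq M n f hf
  · obtain ⟨g, c, hc, hk⟩ := M.homothety
    have := M.tens g
    have h2 : ∀ (k : ℕ) (v : H.obj (pw B k)), ((ρ g).hom.app (pw B k)).hom v = c ^ k • v := by
      intro k v
      obtain ⟨L, hL⟩ := ml_multi H B k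
      have h3 : ((ρ g).hom.app (pw B k)).hom = c ^ k • LinearMap.id := by
        refine ml_ext H fun x => ?_
        rw [nat_ml, LinearMap.smul_apply, LinearMap.id_apply]
        have h4 : (fun t => ((ρ g).hom.app B).hom (x t)) = fun t => c • x t :=
          funext fun t => hc (x t)
        rw [h4, ← hL, ← hL]
        have h5 := L.map_smul_univ (fun _ => c) x
        rw [Finset.prod_const, Finset.card_univ, Fintype.card_fin] at h5
        exact h5
      rw [h3, LinearMap.smul_apply, LinearMap.id_apply]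
    have hinj : ∀ (k : ℕ) (v : H.obj (pw B k)), ((ρ g).hom.app (pw B k)).hom v = 0 → v = 0 := by
      intro k v hv
      have h3 : (ρ g).hom.app (pw B k) ≫ (ρ g).inv.app (pw B k) = 𝟙 _ :=
        Iso.hom_inv_id_app (ρ g) (pw B k)
      have h4 := LinearMap.congr_fun (congrArg ModuleCat.Hom.hom h3) v
      rw [ModuleCat.hom_comp, LinearMap.comp_apply, hv, map_zero, ModuleCat.hom_id,
        LinearMap.id_apply] at h4
      exact h4.symm
    have h6 : f = 0 := by
      refine LinearMap.ext fun v => ?_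
      have h7 := hf g v
      rw [h2, h2, map_smul] at h7
      rw [LinearMap.zero_apply]
      by_cases h0 : c = 0
      · rcases Nat.eq_zero_or_pos m with hm | hm
        · have hn : 0 < n := by omega
          apply hinj
          rw [h2, h0, zero_pow hn.ne', zero_smul]
        · have hv : v = 0 := by
            apply hinj
            rw [h2, h0, zero_pow hm.ne', zero_smul]
          rw [hv, map_zero]
      · have h3 : c ^ m ≠ c ^ n := by
          intro h4
          rcases lt_or_gt_of_ne h with h5 | h5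
          · refine hk (m - n) (by omega) ?_
            apply mul_left_cancel₀ (pow_ne_zero n h0)
            rw [← pow_add, mul_one, Nat.add_sub_cancel' h5.le, h4]
          · refine hk (n - m) (by omega) ?_
            apply mul_left_cancel₀ (pow_ne_zero m h0)
            rw [← pow_add, mul_one, Nat.add_sub_cancel' h5.le, h4]
        have h8 : (c ^ m - c ^ n) • f v = 0 := by
          rw [sub_smul, h7, sub_self]
        exact (smul_eq_zero.1 h8).resolve_left (sub_ne_zero.2 h3)
    rw [h6]
    exact Submodule.zero_mem _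

end Pool.Agent.MUT
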