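import Pool.Agent.MUT.Ml

/-!
# MUT: the inclusion of the coordinate space `(V_c(1) ⊗ ⋯ ⊗ V_c(k))^(⊗ n)`

The product `theta` of functionals dual to `j i` and to `q` recovers the coordinates, so the inclusions are injective. The group acts by a scalar
times `kr`; the scalar is not zero since `ρ g` is injective.
-/

set_option linter.unusedSectionVars false
set_option linter.unusedVariables false

namespace Pool.Agent.MUT

open CategoryTheory MonoidalCategory Limits TensorProduct Pool.Agent.KTT

universe v u w w'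

section jmlin

variable {F : Type*} [Field F] {V : Type*} [AddCommGroup V] [Module F V]

private theorem jm_dual {r : ℕ} {e : Fin r → V} (he : LinearIndependent F e) (a₀ : Fin r) :
    ∃ θ : V →ₗ[F] F, ∀ a, θ (e a) = if a = a₀ then 1 else 0 := by
  classical
  obtain ⟨g, hg⟩ := LinearMap.exists_leftInverse_of_injective (Finsupp.linearCombination F e)
    (LinearMap.ker_eq_bot.2 he)
  refine ⟨(Finsupp.lapply a₀) ∘ₗ g, fun a => ?_⟩
  have h1 : g (e a) = Finsupp.single a (1 : F) := by
    have := LinearMap.congr_fun hg (Finsupp.single a (1 : F))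
    simpa using this
  rw [LinearMap.comp_apply, h1, Finsupp.lapply_apply, Finsupp.single_apply]

private theorem jm_one {q : V} (hq : q ≠ 0) : ∃ φ : V →ₗ[F] F, φ q = 1 := by
  obtain ⟨g, hg⟩ := LinearMap.exists_leftInverse_of_injective (LinearMap.toSpanSingleton F V q)
    (LinearMap.ker_toSpanSingleton F hq)
  refine ⟨g, ?_⟩
  have := LinearMap.congr_fun hg (1 : F)
  simpa using this

private theorem jm_expand {ι : Type*} [Fintype ι] [DecidableEq ι] {W : Type*} [AddCommGroup W]
    [Module F W] (L : MultilinearMap F (fun _ : ι => V) W) {r : ℕ} (e : ι → Fin r → V)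
    (h : ι → Matrix (Fin r) (Fin r) F) (a : ι → F) (x : ι → Fin r) :
    L (fun s => a s • ∑ y, h s y (x s) • e s y) =
      (∏ s, a s) • ∑ y : ι → Fin r, (∏ s, h s (y s) (x s)) • L (fun s => e s (y s)) := by
  rw [L.map_smul_univ]
  congr 1
  rw [L.map_sum]
  exact Finset.sum_congr rfl fun y _ => L.map_smul_univ _ _

end jmlin

variable {C : Type u} [Category.{v} C] [MonoidalCategory C]
  {F : Type w} [Field F] (H : C ⥤ ModuleCat.{w} F) [H.Monoidal]
  {l r k : ℕ} {U Q : C} (j : Fin l → Fin r → H.obj U) (q : H.obj Q) (c : Fin k → Fin l)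

/-- `x ↦ ∑ x a • (j a_1 ⊗ ⋯ ⊗ j a_k ⊗ q)` for `n` blocks -/
noncomputable def Jn (n : ℕ) : ((Fin n × Fin k → Fin r) → F) →ₗ[F] H.obj (pw (pw U k ⊗ Q) n) where
  toFun x := ∑ a, x a • mm H k n (fun s => j (c s.2) (a s)) q
  map_add' x y := by simp only [Pi.add_apply, add_smul, Finset.sum_add_distrib]
  map_smul' b x := by
    simp only [Pi.smul_apply, smul_eq_mul, mul_smul, Finset.smul_sum, RingHom.id_apply]

/-- the same for one block -/
noncomputable def J1 : ((Fin k → Fin r) → F) →ₗ[F] H.obj (pw U k ⊗ Q) where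
  toFun x := ∑ a, x a • tm H (ml H k fun t => j (c t) (a t)) q
  map_add' x y := by simp only [Pi.add_apply, add_smul, Finset.sum_add_distrib]
  map_smul' b x := by
    simp only [Pi.smul_apply, smul_eq_mul, mul_smul, Finset.smul_sum, RingHom.id_apply]

private theorem jm_Jn (n : ℕ) (x : (Fin n × Fin k → Fin r) → F) :
    Jn H j q c n x = ∑ a, x a • mm H k n (fun s => j (c s.2) (a s)) q := rfl

private theorem jm_J1 (x : (Fin k → Fin r) → F) :
    J1 H j q c x = ∑ a, x a • tm H (ml H k fun t => j (c t) (a t)) q := rfl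

theorem Jn_inj (hj : ∀ i, LinearIndependent F (j i)) (hq : q ≠ 0) (n : ℕ) :
    Function.Injective (Jn H j q c n) := by
  classical
  rw [← LinearMap.ker_eq_bot, LinearMap.ker_eq_bot']
  intro x hx
  funext a₀
  choose θ hθ using fun s : Fin n × Fin k => jm_dual (hj (c s.2)) (a₀ s)
  obtain ⟨φ, hφ⟩ := jm_one (F := F) hq
  obtain ⟨Θ, hΘ⟩ := theta H k n θ φ
  have h1 : Θ (Jn H j q c n x) = 0 := by rw [hx, map_zero]
  rw [jm_Jn, map_sum, Finset.sum_eq_single a₀] at h1
  · rw [map_smul, hΘ, hφ, one_pow, mul_one] at h1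
    have h2 : ∏ s, θ s (j (c s.2) (a₀ s)) = 1 := by
      refine Finset.prod_eq_one fun s _ => ?_
      rw [hθ, if_pos rfl]
    rw [h2] at h1
    simpa using h1
  · intro a _ ha
    obtain ⟨s, hs⟩ := Function.ne_iff.1 ha
    have h2 : ∏ s, θ s (j (c s.2) (a s)) = 0 := by
      refine Finset.prod_eq_zero (Finset.mem_univ s) ?_
      rw [hθ, if_neg hs]
    rw [map_smul, hΘ, h2, zero_mul, smul_zero]
  · intro h
    exact absurd (Finset.mem_univ _) h

/-- one block as a power -/
private theorem jm_one_block (x : (Fin k → Fin r) → F) :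
    tm H (J1 H j q c x) ((Functor.LaxMonoidal.ε H).hom (1 : F)) =
      Jn H j q c 1 fun a => x fun t => a (0, t) := by
  classical
  let e : (Fin 1 × Fin k → Fin r) ≃ (Fin k → Fin r) :=
    { toFun := fun a t => a (0, t)
      invFun := fun a s => a s.2
      left_inv := fun a => by
        funext s
        obtain ⟨s, t⟩ := s
        rw [Subsingleton.elim s 0]
      right_inv := fun a => rfl }
  rw [jm_J1, jm_Jn]
  have h1 : tm H (∑ a, x a • tm H (ml H k fun t => j (c t) (a t)) q)
      ((Functor.LaxMonoidal.ε H).hom (1 : F)) = ∑ a, x a • tm H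
        (tm H (ml H k fun t => j (c t) (a t)) q) ((Functor.LaxMonoidal.ε H).hom (1 : F)) := by
    unfold tm
    rw [TensorProduct.sum_tmul, map_sum]
    refine Finset.sum_congr rfl fun a _ => ?_
    rw [← TensorProduct.smul_tmul', map_smul]
  rw [h1]
  refine (Fintype.sum_equiv e _ _ fun a => ?_).symm
  rfl

theorem J1_inj (hj : ∀ i, LinearIndependent F (j i)) (hq : q ≠ 0) :
    Function.Injective (J1 H j q c) := by
  intro x y hxy
  have h1 := jm_one_block H j q c x
  rw [hxy, jm_one_block] at h1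
  have h2 := Jn_inj H j q c hj hq 1 h1
  funext a
  have h3 := congrFun h2 (fun s => a s.2)
  exact h3.symm

variable {G : Type w'} [Group G] (ρ : G →* Aut H)

private theorem jm_aut_inj (g : G) (X : C) {v : H.obj X}
    (hv : ((ρ g).hom.app X).hom v = 0) : v = 0 := by
  have h1 : ((ρ g).inv.app X).hom (((ρ g).hom.app X).hom v) = v := by
    rw [← LinearMap.comp_apply, ← ModuleCat.hom_comp, Iso.hom_inv_id_app, ModuleCat.hom_id]
    rfl
  rw [← h1, hv, map_zero]

theorem Jn_act (hj : ∀ i, LinearIndependent F (j i)) (hq : q ≠ 0) (n : ℕ) {g : G}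
    [NatTrans.IsMonoidal (ρ g).hom] {h : Tup F l r} (hg : Acts H ρ j q g h) :
    ∃ b : F, b ≠ 0 ∧ ∀ x, ((ρ g).hom.app (pw (pw U k ⊗ Q) n)).hom (Jn H j q c n x) =
      b • Jn H j q c n ((kr (fun s : Fin n × Fin k => c s.2) h).mulVec x) := by
  classical
  obtain ⟨h1, a', ha'⟩ := hg
  choose a ha using h1
  obtain ⟨L, hL⟩ := mm_multi H (U := U) k n q
  set b : F := (∏ s : Fin n × Fin k, a (c s.2)) * a' ^ n with hb
  have key : ∀ x, ((ρ g).hom.app (pw (pw U k ⊗ Q) n)).hom (Jn H j q c n x) =
      b • Jn H j q c n ((kr (fun s : Fin n × Fin k => c s.2) h).mulVec x) := by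
    intro x
    have h2 : ∀ y : Fin n × Fin k → Fin r, ((ρ g).hom.app (pw (pw U k ⊗ Q) n)).hom
        (mm H k n (fun s => j (c s.2) (y s)) q) = b • ∑ z : Fin n × Fin k → Fin r,
          (∏ s, h (c s.2) (z s) (y s)) • mm H k n (fun s => j (c s.2) (z s)) q := by
      intro y
      rw [nat_mm, ha', mm_smul]
      have h3 : (fun s : Fin n × Fin k => ((ρ g).hom.app U).hom (j (c s.2) (y s))) =
          fun s => a (c s.2) • ∑ z, h (c s.2) z (y s) • j (c s.2) z := by
        funext s
        exact ha _ _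
      rw [h3, ← hL, jm_expand L (fun s : Fin n × Fin k => j (c s.2)) (fun s => h (c s.2))
        (fun s => a (c s.2)) y, smul_smul, mul_comm, hb]
      congr 1
      exact Finset.sum_congr rfl fun z _ => by rw [hL]
    rw [jm_Jn, map_sum]
    simp only [map_smul, h2]
    rw [jm_Jn]
    simp only [Matrix.mulVec, dotProduct, kr, Matrix.of_apply, Finset.sum_smul, Finset.smul_sum]
    rw [Finset.sum_comm]
    refine Finset.sum_congr rfl fun z _ => Finset.sum_congr rfl fun y _ => ?_
    simp only [smul_smul]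
    congr 1
    ring
  by_cases hb0 : b = 0
  · refine ⟨1, one_ne_zero, fun x => ?_⟩
    have hx : ∀ x, Jn H j q c n x = 0 := fun x =>
      jm_aut_inj H ρ g _ (by rw [key, hb0, zero_smul])
    rw [hx, hx, map_zero, smul_zero]
  · exact ⟨b, hb0, key⟩

theorem J1_act (hj : ∀ i, LinearIndependent F (j i)) (hq : q ≠ 0) {g : G}
    [NatTrans.IsMonoidal (ρ g).hom] {h : Tup F l r} (hg : Acts H ρ j q g h) :
    ∃ b : F, b ≠ 0 ∧ ∀ x, ((ρ g).hom.app (pw U k ⊗ Q)).hom (J1 H j q c x) =
      b • J1 H j q c ((kr c h).mulVec x) := by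
  classical
  obtain ⟨h1, a', ha'⟩ := hg
  choose a ha using h1
  obtain ⟨L, hL⟩ := ml_multi H U k
  set b : F := a' * ∏ t : Fin k, a (c t) with hb
  have key : ∀ x, ((ρ g).hom.app (pw U k ⊗ Q)).hom (J1 H j q c x) =
      b • J1 H j q c ((kr c h).mulVec x) := by
    intro x
    have h2 : ∀ y : Fin k → Fin r, ((ρ g).hom.app (pw U k ⊗ Q)).hom
        (tm H (ml H k fun t => j (c t) (y t)) q) = b • ∑ z : Fin k → Fin r,
          (∏ t, h (c t) (z t) (y t)) • tm H (ml H k fun t => j (c t) (z t)) q := by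
      intro y
      rw [nat_tm, nat_ml, ha', tm_smul_right]
      have h3 : (fun t : Fin k => ((ρ g).hom.app U).hom (j (c t) (y t))) =
          fun t => a (c t) • ∑ z, h (c t) z (y t) • j (c t) z := by
        funext t
        exact ha _ _
      rw [h3, ← hL, jm_expand L (fun t : Fin k => j (c t)) (fun t => h (c t))
        (fun t => a (c t)) y, tm_smul_left, smul_smul, ← hb]
      congr 1
      unfold tm
      rw [TensorProduct.sum_tmul, map_sum]
      refine Finset.sum_congr rfl fun z _ => ?_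
      rw [← TensorProduct.smul_tmul', map_smul, hL]
    rw [jm_J1, map_sum]
    simp only [map_smul, h2]
    rw [jm_J1]
    simp only [Matrix.mulVec, dotProduct, kr, Matrix.of_apply, Finset.sum_smul, Finset.smul_sum]
    rw [Finset.sum_comm]
    refine Finset.sum_congr rfl fun z _ => Finset.sum_congr rfl fun y _ => ?_
    simp only [smul_smul]
    congr 1
    ring
  by_cases hb0 : b = 0
  · refine ⟨1, one_ne_zero, fun x => ?_⟩
    have hx : ∀ x, J1 H j q c x = 0 := fun x =>
      jm_aut_inj H ρ g _ (by rw [key, hb0, zero_smul])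
    rw [hx, hx, map_zero, smul_zero]
  · exact ⟨b, hb0, key⟩

end Pool.Agent.MUT
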