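import Pool.Agent.MUT.EndG
import Pool.Agent.MUT.Hom
import Pool.Agent.MUT.WordIso
import Pool.Agent.MUT.EmbD

/-!
# MUT: the Tate property for all tensor words in an object of tensor type
-/

set_option linter.unusedSectionVars false
set_option linter.unusedVariables false

namespace Pool.Agent.MUT

open CategoryTheory MonoidalCategory Limits TensorProduct Pool.Agent.KTT Pool.Agent.KMN

universe v u w w'

variable {C : Type u} [Category.{v} C] [MonoidalCategory C] [RightRigidCategory C]
  {F : Type w} [Field F] [CharZero F] {H : C ⥤ ModuleCat.{w} F} [H.Monoidal]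
  {G : Type w'} [Group G] {ρ : G →* Aut H} {B : C}

theorem emb_word [BraidedCategory C] (M : TensorType H ρ B) {W : C} (h : Word B W) :
    Emb H ρ M.j M.q W := by
  induction h with
  | base => exact emb_base H ρ M
  | tensor X Y _ _ hX hY => exact emb_tensor H ρ M.j M.q M.tens hX hY
  | dual X _ hX => exact emb_dual H ρ M.j M.q M.tens hX

private theorem main_retract {X Y : C} (i : X ⟶ Y) (p : Y ⟶ X) (h : i ≫ p = 𝟙 X)
    (hY : fixed H ρ Y ≤ alg H Y) : fixed H ρ X ≤ alg H X := by
  intro v hv
  have h1 : (H.map p).hom ((H.map i).hom v) = v := by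
    have h1 := congrArg (fun k => (H.map k).hom v) h
    simpa only [H.map_comp, ModuleCat.hom_comp, LinearMap.comp_apply,
      CategoryTheory.Functor.map_id, ModuleCat.hom_id, LinearMap.id_apply] using h1
  have h2 : (H.map i).hom v ∈ fixed H ρ Y := fun g => by
    have h3 := congrArg (fun k => k.hom v) ((ρ g).hom.naturality i)
    simp only [ModuleCat.hom_comp, LinearMap.comp_apply] at h3
    rw [h3, hv g]
  have h4 : alg H Y ≤ (alg H X).comap (H.map p).hom := by
    refine Submodule.span_le.2 ?_
    rintro _ ⟨g, rfl⟩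
    refine Submodule.subset_span ⟨g ≫ p, ?_⟩
    rw [H.map_comp, ModuleCat.hom_comp, LinearMap.comp_apply]
  rw [← h1]
  exact h4 (hY h2)

theorem tensor_words [IsAlgClosed F] [BraidedCategory C] (M : TensorType H ρ B) {W : C}
    (h : Word B W) : fixed H ρ W ≤ alg H W ∧ Semisimple H ρ W := by
  constructor
  · obtain ⟨n, m, ⟨φ⟩⟩ := word_iso h
    exact main_retract φ.hom φ.inv φ.hom_inv_id
      (tate_hom M.tens (pw B n) (pw B m) fun f hf => hom_pw M n m f hf)
  · exact emb_ss H ρ M.j M.q M.act M.dense (emb_word M h)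

end Pool.Agent.MUT
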