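import Pool.Agent.MUT.Ah

/-!
# MUT: products of vectors

`ml H n x` is the product of the vectors `x 0, …, x (n - 1)`. `mm H k n x q` is the product of `n` blocks `x (t, 0) ⊗ ⋯ ⊗ x (t, k - 1) ⊗ q`.

They are multilinear, generate, and are compatible with monoidal natural transformations, with products of functionals and
with tensor powers of algebraic maps.
-/

set_option linter.unusedSectionVars false
set_option linter.unusedVariables false

namespace Pool.Agent.MUT

open CategoryTheory MonoidalCategory Limits TensorProduct Pool.Agent.KTT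

universe v u w w'

variable {C : Type u} [Category.{v} C] [MonoidalCategory C]
  {F : Type w} [Field F] (H : C ⥤ ModuleCat.{w} F) [H.Monoidal]

/-- the product of `n` blocks `x (t, 0) ⊗ ⋯ ⊗ x (t, k - 1) ⊗ q` -/
noncomputable def mm {U Q : C} (k n : ℕ) (x : Fin n × Fin k → H.obj U) (q : H.obj Q) :
    H.obj (pw (pw U k ⊗ Q) n) :=
  ml H n fun t => tm H (ml H k fun i => x (t, i)) q

/-- `tm` as a bilinear map -/
private noncomputable def ml_tmL (X Y : C) : H.obj X →ₗ[F] H.obj Y →ₗ[F] H.obj (X ⊗ Y) :=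
  LinearMap.mk₂ F (fun x y => tm H x y) (fun x x' y => tm_add_left H x x' y)
    (fun c x y => tm_smul_left H c x y) (fun x y y' => tm_add_right H x y y')
    (fun c x y => tm_smul_right H c x y)

private theorem ml_tmL_apply {X Y : C} (x : H.obj X) (y : H.obj Y) :
    ml_tmL H X Y x y = tm H x y := rfl

theorem ml_multi (U : C) (n : ℕ) :
    ∃ L : MultilinearMap F (fun _ : Fin n => H.obj U) (H.obj (pw U n)), ∀ x, L x = ml H n x := by
  induction n with
  | zero =>
    exact ⟨MultilinearMap.constOfIsEmpty F (fun _ : Fin 0 => H.obj U)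
      ((Functor.LaxMonoidal.ε H).hom (1 : F)), fun x => rfl⟩
  | succ n ih =>
    obtain ⟨L, hL⟩ := ih
    let f : H.obj U →ₗ[F] MultilinearMap F (fun _ : Fin n => H.obj U) (H.obj (pw U (n + 1))) :=
      { toFun := fun x0 => (ml_tmL H U (pw U n) x0).compMultilinearMap L
        map_add' := fun a b => by
          ext y
          show ml_tmL H U (pw U n) (a + b) (L y) = _
          rw [map_add]
          rfl
        map_smul' := fun c a => by
          ext y
          show ml_tmL H U (pw U n) (c • a) (L y) = _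
          rw [map_smul]
          rfl }
    refine ⟨f.uncurryLeft, fun x => ?_⟩
    rw [LinearMap.uncurryLeft_apply]
    show tm H (x 0) (L (Fin.tail x)) = tm H (x 0) (ml H n fun k => x k.succ)
    rw [hL]
    rfl

theorem mm_multi {U Q : C} (k n : ℕ) (q : H.obj Q) :
    ∃ L : MultilinearMap F (fun _ : Fin n × Fin k => H.obj U) (H.obj (pw (pw U k ⊗ Q) n)),
      ∀ x, L x = mm H k n x q := by
  classical
  obtain ⟨L, hL⟩ := ml_multi H (pw U k ⊗ Q) n
  obtain ⟨K, hK⟩ := ml_multi H U k
  have key : ∀ [DecidableEq (Fin n × Fin k)] (x : Fin n × Fin k → H.obj U) (s : Fin n × Fin k)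
      (v : H.obj U),
      (fun t => tm H (ml H k fun i => Function.update x s v (t, i)) q) =
        Function.update (fun t => tm H (ml H k fun i => x (t, i)) q) s.1
          (tm H (K (Function.update (fun i => x (s.1, i)) s.2 v)) q) := by
    intro _ x s v
    funext t
    by_cases ht : t = s.1
    · subst ht
      rw [Function.update_self, hK]
      congr 2
      funext i
      by_cases hi : i = s.2
      · subst hi
        rw [Function.update_self]
        exact (Function.update_self s.2 v fun i => x (s.1, i)).symm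
      · rw [Function.update_of_ne hi, Function.update_of_ne]
        intro h
        exact hi (congrArg Prod.snd h)
    · rw [Function.update_of_ne ht]
      congr 2
      funext i
      rw [Function.update_of_ne]
      intro h
      exact ht (congrArg Prod.fst h)
  refine ⟨{ toFun := fun x => mm H k n x q
            map_update_add' := ?_
            map_update_smul' := ?_ }, fun x => rfl⟩
  · intro _ x s v v'
    unfold mm
    rw [key x s, key x s, key x s, ← hL, ← hL, ← hL, K.map_update_add, tm_add_left,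
      L.map_update_add]
  · intro _ x s c v
    unfold mm
    rw [key x s, key x s, ← hL, ← hL, K.map_update_smul, tm_smul_left, L.map_update_smul]

private theorem ml_unit_span (z : H.obj (𝟙_ C)) : ∃ a : F, z = a • un H := by
  refine ⟨(Functor.OplaxMonoidal.η H).hom z, ?_⟩
  have h : (Functor.LaxMonoidal.ε H).hom ((Functor.OplaxMonoidal.η H).hom z) = z :=
    LinearMap.congr_fun (congrArg ModuleCat.Hom.hom (Functor.Monoidal.η_ε H)) z
  unfold un
  rw [← map_smul]
  have h1 : ((Functor.OplaxMonoidal.η H).hom z : F) • (1 : F) =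
      ((Functor.OplaxMonoidal.η H).hom z : F) := by rw [smul_eq_mul, mul_one]
  exact h.symm.trans (congrArg (Functor.LaxMonoidal.ε H).hom h1.symm)

/-- two linear maps which agree on all products of vectors are equal -/
theorem ml_ext {U : C} {n : ℕ} {V : Type*} [AddCommGroup V] [Module F V]
    {f g : H.obj (pw U n) →ₗ[F] V} (h : ∀ x, f (ml H n x) = g (ml H n x)) : f = g := by
  induction n with
  | zero =>
    refine LinearMap.ext fun z => ?_
    obtain ⟨a, ha⟩ := ml_unit_span H z
    have h0 : f (un H) = g (un H) := h Fin.elim0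
    have h1 : f z = a • f (un H) := by
      rw [← map_smul]
      exact congrArg f ha
    have h2 : g z = a • g (un H) := by
      rw [← map_smul]
      exact congrArg g ha
    rw [h1, h2, h0]
  | succ n ih =>
    refine tm_ext H (X := U) (Y := pw U n) fun x y => ?_
    have h1 : f ∘ₗ ml_tmL H U (pw U n) x = g ∘ₗ ml_tmL H U (pw U n) x := by
      refine ih fun z => ?_
      have h2 := h (Fin.cons x z)
      exact h2
    exact LinearMap.congr_fun h1 y

theorem nat_ml (τ : H ⟶ H) [NatTrans.IsMonoidal τ] {U : C} (n : ℕ) (x : Fin n → H.obj U) :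
    (τ.app (pw U n)).hom (ml H n x) = ml H n fun t => (τ.app U).hom (x t) := by
  induction n with
  | zero => exact nat_un H τ
  | succ n ih =>
    have h1 : (τ.app (U ⊗ pw U n)).hom (tm H (x 0) (ml H n fun k => x k.succ)) =
        tm H ((τ.app U).hom (x 0)) (ml H n fun k => (τ.app U).hom (x k.succ)) := by
      rw [nat_tm, ih]
    exact h1

theorem nat_mm (τ : H ⟶ H) [NatTrans.IsMonoidal τ] {U Q : C} (k n : ℕ)
    (x : Fin n × Fin k → H.obj U) (q : H.obj Q) :
    (τ.app (pw (pw U k ⊗ Q) n)).hom (mm H k n x q) =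
      mm H k n (fun s => (τ.app U).hom (x s)) ((τ.app Q).hom q) := by
  unfold mm
  rw [nat_ml]
  congr 1
  funext t
  rw [nat_tm, nat_ml]

private theorem ml_smul_all {U : C} (n : ℕ) (x : Fin n → H.obj U) (a : F) :
    ml H n (fun t => a • x t) = a ^ n • ml H n x := by
  induction n with
  | zero =>
    rw [pow_zero, one_smul]
    rfl
  | succ n ih =>
    have h1 : ml H (n + 1) (fun t => a • x t) =
        tm H (a • x 0) (ml H n fun k => a • x k.succ) := rfl
    have h2 : ml H (n + 1) x = tm H (x 0) (ml H n fun k => x k.succ) := rfl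
    rw [h1, h2, ih, tm_smul_left, tm_smul_right, smul_smul, pow_succ']
    rfl

/-- scaling `q` -/
theorem mm_smul {U Q : C} (k n : ℕ) (x : Fin n × Fin k → H.obj U) (a : F) (q : H.obj Q) :
    mm H k n x (a • q) = a ^ n • mm H k n x q := by
  unfold mm
  rw [← ml_smul_all]
  congr 1
  funext t
  rw [tm_smul_right]

private theorem ml_fun2 {X Y : C} (f : H.obj X →ₗ[F] F) (g : H.obj Y →ₗ[F] F) :
    ∃ Θ : H.obj (X ⊗ Y) →ₗ[F] F, ∀ x y, Θ (tm H x y) = f x * g y := by
  refine ⟨LinearMap.mul' F F ∘ₗ TensorProduct.map f g ∘ₗ (Functor.OplaxMonoidal.δ H X Y).hom,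
    fun x y => ?_⟩
  have h : (Functor.OplaxMonoidal.δ H X Y).hom (tm H x y) = x ⊗ₜ[F] y :=
    LinearMap.congr_fun (congrArg ModuleCat.Hom.hom (Functor.Monoidal.μ_δ H X Y)) (x ⊗ₜ[F] y)
  rw [LinearMap.comp_apply, LinearMap.comp_apply]
  refine Eq.trans (congrArg (fun z => LinearMap.mul' F F (TensorProduct.map f g z)) h) ?_
  show LinearMap.mul' F F (TensorProduct.map f g (x ⊗ₜ[F] y)) = f x * g y
  rw [TensorProduct.map_tmul, LinearMap.mul'_apply]

private theorem ml_funn {U : C} (n : ℕ) (θ : Fin n → (H.obj U →ₗ[F] F)) :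
    ∃ Θ : H.obj (pw U n) →ₗ[F] F, ∀ x, Θ (ml H n x) = ∏ t, θ t (x t) := by
  induction n with
  | zero =>
    refine ⟨(Functor.OplaxMonoidal.η H).hom, fun x => ?_⟩
    have h : (Functor.OplaxMonoidal.η H).hom ((Functor.LaxMonoidal.ε H).hom (1 : F)) = (1 : F) :=
      LinearMap.congr_fun (congrArg ModuleCat.Hom.hom (Functor.Monoidal.ε_η H)) (1 : F)
    rw [Fin.prod_univ_zero]
    exact h
  | succ n ih =>
    obtain ⟨Θ', h'⟩ := ih fun t => θ t.succ
    obtain ⟨Θ, h⟩ := ml_fun2 H (θ 0) Θ'
    refine ⟨Θ, fun x => ?_⟩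
    rw [Fin.prod_univ_succ, ← h', ← h]
    rfl

theorem theta {U Q : C} (k n : ℕ) (θ : Fin n × Fin k → (H.obj U →ₗ[F] F))
    (φ : H.obj Q →ₗ[F] F) :
    ∃ Θ : H.obj (pw (pw U k ⊗ Q) n) →ₗ[F] F,
      ∀ x q, Θ (mm H k n x q) = (∏ s, θ s (x s)) * φ q ^ n := by
  have h1 : ∀ t : Fin n, ∃ Ψ : H.obj (pw U k ⊗ Q) →ₗ[F] F,
      ∀ y q, Ψ (tm H (ml H k y) q) = (∏ i, θ (t, i) (y i)) * φ q := by
    intro t
    obtain ⟨A, hA⟩ := ml_funn H k fun i => θ (t, i)
    obtain ⟨Ψ, hΨ⟩ := ml_fun2 H A φ
    exact ⟨Ψ, fun y q => by rw [hΨ, hA]⟩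
  choose Ψ hΨ using h1
  obtain ⟨Θ, hΘ⟩ := ml_funn H n Ψ
  refine ⟨Θ, fun x q => ?_⟩
  unfold mm
  rw [hΘ, Fintype.prod_prod_type]
  simp only [hΨ]
  rw [Finset.prod_mul_distrib, Finset.prod_const, Finset.card_univ, Fintype.card_fin]

/-- tensor powers of algebraic maps -/
theorem ah_pw {X Y : C} {f : H.obj X →ₗ[F] H.obj Y} (hf : f ∈ ah H X Y) (n : ℕ) :
    ∃ f' ∈ ah H (pw X n) (pw Y n), ∀ x, f' (ml H n x) = ml H n fun t => f (x t) := by
  induction n with
  | zero => exact ⟨LinearMap.id, ah_id H _, fun x => rfl⟩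
  | succ n ih =>
    obtain ⟨f', hf', h'⟩ := ih
    refine ⟨tl H f f', ah_tl H hf hf', fun x => ?_⟩
    have h1 : tl H f f' (tm H (x 0) (ml H n fun k => x k.succ)) =
        tm H (f (x 0)) (ml H n fun k => f (x k.succ)) := by
      rw [tl_tm, h']
    exact h1

end Pool.Agent.MUT
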