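import Pool.Agent.MUT.Defs

/-!
# MUT: symmetric matrices are combinations of tensor powers (polarization)

A linear functional which vanishes on all `kr c h` is a polynomial in the coordinates of `h` which vanishes
identically, so its coefficients are zero (`MvPolynomial.funext`). The coefficient of a monomial is the sum of the
values at the matrix units `a, b` with this monomial, and the matrix `X` is constant on these pairs, as two pairs with
the same monomial differ by a permutation of the slots which preserves the colours.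
-/

set_option linter.unusedSectionVars false
set_option linter.unusedVariables false

namespace Pool.Agent.MUT

universe w

variable {F : Type w} [Field F] {l r : ℕ}

/-- the monomial of a matrix unit -/
private noncomputable def Pol_mon {S : Type} [Fintype S] (c : S → Fin l) (a b : S → Fin r) :
    Fin l × Fin r × Fin r →₀ ℕ :=
  ∑ s, Finsupp.single (c s, a s, b s) 1

private theorem Pol_mon_apply {S : Type} [Fintype S] (c : S → Fin l) (a b : S → Fin r)
    (x : Fin l × Fin r × Fin r) :
    Pol_mon c a b x = (Finset.univ.filter fun s => (c s, a s, b s) = x).card := by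
  unfold Pol_mon
  rw [Finsupp.finsetSum_apply, Finset.card_filter]
  exact Finset.sum_congr rfl fun s _ => Finsupp.single_apply

private theorem Pol_perm {S : Type} [Fintype S] [DecidableEq S] (c : S → Fin l) {a b a' b' : S → Fin r}
    (h : Pol_mon c a b = Pol_mon c a' b') :
    ∃ σ : Equiv.Perm S, (∀ s, c (σ s) = c s) ∧ a ∘ σ = a' ∧ b ∘ σ = b' := by
  have h2 : ∀ x : Fin l × Fin r × Fin r,
      Nonempty ({s // (c s, a' s, b' s) = x} ≃ {s // (c s, a s, b s) = x}) := by
    intro x
    refine ⟨Fintype.equivOfCardEq ?_⟩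
    rw [Fintype.card_subtype, Fintype.card_subtype, ← Pol_mon_apply, ← Pol_mon_apply, h]
  have h3 := Equiv.ofFiberEquiv_map (f := fun s => (c s, a' s, b' s)) (g := fun s => (c s, a s, b s))
    fun x => (h2 x).some
  refine ⟨Equiv.ofFiberEquiv (f := fun s => (c s, a' s, b' s)) (g := fun s => (c s, a s, b s))
    fun x => (h2 x).some, fun s => ?_, ?_, ?_⟩
  · exact (Prod.mk.inj (h3 s)).1
  · funext s
    exact (Prod.mk.inj (Prod.mk.inj (h3 s)).2).1
  · funext s
    exact (Prod.mk.inj (Prod.mk.inj (h3 s)).2).2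

private theorem Pol_eval {S : Type} [Fintype S] (c : S → Fin l) (a b : S → Fin r) (z : F)
    (v : Fin l × Fin r × Fin r → F) :
    MvPolynomial.eval v (MvPolynomial.monomial (Pol_mon c a b) z) = z * ∏ s, v (c s, a s, b s) := by
  have h1 : MvPolynomial.monomial (Pol_mon c a b) (1 : F) = ∏ s, MvPolynomial.X (c s, a s, b s) := by
    unfold Pol_mon
    rw [MvPolynomial.monomial_sum_one]
    rfl
  have h2 : MvPolynomial.monomial (Pol_mon c a b) z =
      MvPolynomial.C z * MvPolynomial.monomial (Pol_mon c a b) 1 := by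
    rw [MvPolynomial.C_mul_monomial, mul_one]
  rw [h2, map_mul, MvPolynomial.eval_C, h1, map_prod]
  congr 1
  exact Finset.prod_congr rfl fun s _ => MvPolynomial.eval_X _

private theorem Pol_coeff [CharZero F] {S : Type} [Fintype S] [DecidableEq S] (c : S → Fin l)
    (z : (S → Fin r) → (S → Fin r) → F)
    (hc : ∀ h : Tup F l r, ∑ a, ∑ b, kr c h a b * z a b = 0) (μ : Fin l × Fin r × Fin r →₀ ℕ) :
    ∑ a : S → Fin r, ∑ b : S → Fin r, (if Pol_mon c a b = μ then z a b else 0) = 0 := by
  classical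
  have hp : (∑ a : S → Fin r, ∑ b : S → Fin r, MvPolynomial.monomial (Pol_mon c a b) (z a b)) = 0 := by
    refine MvPolynomial.funext fun v => ?_
    rw [map_zero, map_sum, ← hc fun i => Matrix.of fun s t => v (i, s, t)]
    refine Finset.sum_congr rfl fun a _ => ?_
    rw [map_sum]
    refine Finset.sum_congr rfl fun b _ => ?_
    rw [Pol_eval, mul_comm]
    rfl
  have h1 := congrArg (MvPolynomial.coeff μ) hp
  rw [MvPolynomial.coeff_zero, MvPolynomial.coeff_sum] at h1
  refine Eq.trans (Finset.sum_congr rfl fun a _ => ?_) h1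
  rw [MvPolynomial.coeff_sum]
  exact Finset.sum_congr rfl fun b _ => (MvPolynomial.coeff_monomial μ (Pol_mon c a b) (z a b)).symm

private theorem Pol_sum {S : Type} [Fintype S] [DecidableEq S] (c : S → Fin l)
    (X : Matrix (S → Fin r) (S → Fin r) F)
    (hX : ∀ σ : Equiv.Perm S, (∀ s, c (σ s) = c s) →
      ∀ a b : S → Fin r, X (a ∘ σ) (b ∘ σ) = X a b)
    (z : (S → Fin r) → (S → Fin r) → F)
    (hc : ∀ μ : Fin l × Fin r × Fin r →₀ ℕ,
      ∑ a : S → Fin r, ∑ b : S → Fin r, (if Pol_mon c a b = μ then z a b else 0) = 0) :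
    ∑ a, ∑ b, X a b * z a b = 0 := by
  classical
  have h3 : ∑ a : S → Fin r, ∑ b : S → Fin r, X a b * z a b =
      ∑ x : (S → Fin r) × (S → Fin r), X x.1 x.2 * z x.1 x.2 :=
    (Fintype.sum_prod_type fun x : (S → Fin r) × (S → Fin r) => X x.1 x.2 * z x.1 x.2).symm
  have hmap : ∀ x ∈ (Finset.univ : Finset ((S → Fin r) × (S → Fin r))), Pol_mon c x.1 x.2 ∈
      (Finset.univ : Finset ((S → Fin r) × (S → Fin r))).image (fun x => Pol_mon c x.1 x.2) := by
    intro x hx
    rw [Finset.mem_image]
    exact ⟨x, hx, rfl⟩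
  rw [h3, ← Finset.sum_fiberwise_of_maps_to hmap
    fun x : (S → Fin r) × (S → Fin r) => X x.1 x.2 * z x.1 x.2]
  refine Finset.sum_eq_zero fun μ hμ => ?_
  obtain ⟨y, _, hy⟩ := Finset.mem_image.1 hμ
  have h4 : ∀ x ∈ (Finset.univ : Finset ((S → Fin r) × (S → Fin r))).filter
      (fun x => Pol_mon c x.1 x.2 = μ), X x.1 x.2 * z x.1 x.2 = X y.1 y.2 * z x.1 x.2 := by
    intro x hx
    obtain ⟨σ, h0, h5, h6⟩ := Pol_perm c (hy.trans (Finset.mem_filter.1 hx).2.symm)
    rw [← h5, ← h6, hX σ h0]
  have h5 : ∑ x ∈ (Finset.univ : Finset ((S → Fin r) × (S → Fin r))).filter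
      (fun x => Pol_mon c x.1 x.2 = μ), z x.1 x.2 = 0 := by
    rw [Finset.sum_filter]
    exact (Fintype.sum_prod_type fun x : (S → Fin r) × (S → Fin r) =>
      if Pol_mon c x.1 x.2 = μ then z x.1 x.2 else 0).trans (hc μ)
  rw [Finset.sum_congr rfl h4, ← Finset.mul_sum, h5, mul_zero]

theorem sym_mem_span [CharZero F] {S : Type} [Fintype S] [DecidableEq S] (c : S → Fin l)
    (X : Matrix (S → Fin r) (S → Fin r) F)
    (hX : ∀ σ : Equiv.Perm S, (∀ s, c (σ s) = c s) →
      ∀ a b : S → Fin r, X (a ∘ σ) (b ∘ σ) = X a b) :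
    X ∈ Submodule.span F (Set.range (kr (F := F) (r := r) c)) := by
  classical
  by_contra hmem
  obtain ⟨f, hf, hf0⟩ := Submodule.exists_dual_map_eq_bot_of_notMem hmem inferInstance
  have hfs : ∀ M : Matrix (S → Fin r) (S → Fin r) F,
      f M = ∑ a, ∑ b, M a b * f (Matrix.single a b 1) := by
    intro M
    conv_lhs => rw [Matrix.matrix_eq_sum_single M]
    rw [map_sum]
    refine Finset.sum_congr rfl fun a _ => ?_
    rw [map_sum]
    refine Finset.sum_congr rfl fun b _ => ?_
    rw [← smul_eq_mul, ← map_smul, Matrix.smul_single, smul_eq_mul, mul_one]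
  have hfk : ∀ h : Tup F l r, ∑ a, ∑ b, kr c h a b * f (Matrix.single a b 1) = 0 := by
    intro h
    have h1 : f (kr c h) ∈ (Submodule.span F (Set.range (kr (F := F) (r := r) c))).map f :=
      Submodule.mem_map_of_mem (Submodule.subset_span ⟨h, rfl⟩)
    rw [hf0] at h1
    rw [← hfs]
    exact (Submodule.mem_bot F).1 h1
  exact hf ((hfs X).trans (Pol_sum c X hX _ (Pol_coeff c _ hfk)))

end Pool.Agent.MUT
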