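import Pool.Agent.MUT.Jm

/-!
# MUT: the tensor powers of `up` and `down`

Induction on `n` or `ah_pw` with `ml_ext`: `A = up^(⊗ n)`, `D = down^(⊗ n)`, `D (A v) = v` on products (`ml_ext`). The coordinates: `up` has values in the
range of `J1`, `up v = J1 (e v)`, so `A (ml v) = ml (up (v t)) = ml (J1 (e (v t)))`, which is `Jn` of the product of the `e (v t)` (multilinearity of `ml`);
so the range of `A` is contained in the range of `Jn` (`Jn_inj` gives the linear map `E`: `LinearMap.exists_leftInverse_of_injective` and a span argument).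
-/

set_option linter.unusedSectionVars false
set_option linter.unusedVariables false

namespace Pool.Agent.MUT

open CategoryTheory MonoidalCategory Limits TensorProduct Pool.Agent.KTT

universe v u w w'

variable {C : Type u} [Category.{v} C] [MonoidalCategory C] [BraidedCategory C]
  {F : Type w} [Field F] {H : C ⥤ ModuleCat.{w} F} [H.Monoidal]
  {G : Type w'} [Group G] {ρ : G →* Aut H} {B : C}

theorem up_eq_J1 (M : TensorType H ρ B) (v : H.obj B) : M.up v = J1 H M.j M.q M.c (M.e v) := by
  rw [M.up_eq]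
  rfl

private theorem UpD_Jn_single {l r k : ℕ} {U Q : C} (j : Fin l → Fin r → H.obj U) (q : H.obj Q)
    (c : Fin k → Fin l) (n : ℕ) (b : Fin n × Fin k → Fin r) :
    Jn H j q c n (Pi.single b 1) = mm H k n (fun s => j (c s.2) (b s)) q := by
  change ∑ a, (Pi.single b (1 : F) : (Fin n × Fin k → Fin r) → F) a •
    mm H k n (fun s => j (c s.2) (a s)) q = _
  rw [Finset.sum_eq_single b]
  · rw [Pi.single_eq_same, one_smul]
  · intro a _ hab
    rw [Pi.single_eq_of_ne hab, zero_smul]
  · intro h
    exact (h (Finset.mem_univ b)).elim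

private theorem UpD_range {l r k : ℕ} {U Q : C} (j : Fin l → Fin r → H.obj U) (q : H.obj Q)
    (c : Fin k → Fin l) (n : ℕ) (x : Fin n → ((Fin k → Fin r) → F)) :
    ml H n (fun t => ∑ a, x t a • tm H (ml H k fun s => j (c s) (a s)) q) ∈
      LinearMap.range (Jn H j q c n) := by
  obtain ⟨L, hL⟩ := ml_multi H (pw U k ⊗ Q) n
  rw [← hL, MultilinearMap.map_sum]
  refine Submodule.sum_mem _ fun b _ => ?_
  rw [MultilinearMap.map_smul_univ]
  refine Submodule.smul_mem _ _ ?_
  rw [hL]
  exact ⟨Pi.single (fun s : Fin n × Fin k => b s.1 s.2) 1, UpD_Jn_single j q c n _⟩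

theorem exists_updown (M : TensorType H ρ B) (n : ℕ) :
    ∃ A ∈ ah H (pw B n) (pw (pw M.U M.k ⊗ M.Q) n),
      ∃ D ∈ ah H (pw (pw M.U M.k ⊗ M.Q) n) (pw B n),
      ∃ E : H.obj (pw B n) →ₗ[F] ((Fin n × Fin M.k → Fin M.r) → F),
        (∀ v, A v = Jn H M.j M.q M.c n (E v)) ∧ ∀ v, D (A v) = v := by
  obtain ⟨A, hA, hA'⟩ := ah_pw H M.up_mem n
  obtain ⟨D, hD, hD'⟩ := ah_pw H M.down_mem n
  obtain ⟨g, hg⟩ := LinearMap.exists_leftInverse_of_injective (Jn H M.j M.q M.c n)
    (LinearMap.ker_eq_bot.2 (Jn_inj H M.j M.q M.c M.j_indep M.q_ne n))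
  have hr : ∀ v, A v ∈ LinearMap.range (Jn H M.j M.q M.c n) := by
    have h1 : (LinearMap.range (Jn H M.j M.q M.c n)).mkQ ∘ₗ A = 0 := by
      refine ml_ext H fun x => ?_
      rw [LinearMap.comp_apply, hA', LinearMap.zero_apply, Submodule.mkQ_apply,
        Submodule.Quotient.mk_eq_zero]
      have h2 : (fun t => M.up (x t)) = fun t => ∑ a, M.e (x t) a •
          tm H (ml H M.k fun s => M.j (M.c s) (a s)) M.q := by
        funext t
        exact M.up_eq (x t)
      rw [h2]
      exact UpD_range M.j M.q M.c n fun t => M.e (x t)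
    intro v
    have h3 := LinearMap.congr_fun h1 v
    rwa [LinearMap.comp_apply, LinearMap.zero_apply, Submodule.mkQ_apply,
      Submodule.Quotient.mk_eq_zero] at h3
  refine ⟨A, hA, D, hD, g ∘ₗ A, ?_, ?_⟩
  · intro v
    obtain ⟨x, hx⟩ := hr v
    rw [LinearMap.comp_apply, ← hx]
    exact congrArg (Jn H M.j M.q M.c n) (LinearMap.congr_fun hg x).symm
  · have h4 : D ∘ₗ A = LinearMap.id := by
      refine ml_ext H fun x => ?_
      rw [LinearMap.comp_apply, hA', hD', LinearMap.id_apply]
      congr 1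
      funext t
      exact M.down_up (x t)
    intro v
    exact LinearMap.congr_fun h4 v

end Pool.Agent.MUT
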